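import Pool.Agent.U393.LG.Reg
import Pool.Agent.N162.BC.Defs

/-!
A finite cover of small degree of an almost homogeneous variety does not dominate a curve whose
holomorphic differentials separate many points.
-/

set_option autoImplicit false
set_option linter.overlappingInstances false
set_option linter.unusedSectionVars false

open FF Pool.Agent.W602.GT Pool.Agent.W603.LV Pool.Agent.W619.PQ Pool.Agent.Y172
open Pool.Agent.N162.BC (GlobalForm)

namespace Pool.Agent.U393.LG

section

variable {R L : Type} [Field R] [Field L] [Algebra ℂ R] [Algebra ℂ L]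
  [Algebra R L] [IsScalarTower ℂ R L] [FiniteDimensional R L]

/-- functions which are constant along all vector fields -/
theorem all_zero {r : ℕ} (hN : Algebra.trdeg ℂ R = (r + 1 : ℕ))
    {D : Fin (r + 1) → Derivation ℂ R R} (hD : LinearIndependent R D)
    {D' : Fin (r + 1) → Derivation ℂ L L}
    (hD' : ∀ j f, D' j (algebraMap R L f) = algebraMap R L (D j f)) {z : L}
    (hz : ∀ j, D' j z = 0) : IsAlgebraic ℂ z := by
  classical
  by_contra h
  have h0 : AlgebraicIndependent ℂ (fun _ : Fin 1 => z) :=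
    algebraicIndependent_unique_type_iff.2 h
  obtain ⟨G, hG⟩ := Pool.Agent.TH466.QT.exists_dual_of_indep h0
  obtain ⟨x, -, hx, -⟩ := exists_crd hN
  obtain ⟨A, hA⟩ : ∃ A : Matrix (Fin (r + 1)) (Fin (r + 1)) R, A = Matrix.of fun j i => D j (x i) :=
    ⟨_, rfl⟩
  have hAu : IsUnit A := by
    rw [hA]
    exact SA.isUnit_vert hx hD
  have hAu' : IsUnit ((algebraMap R L).mapMatrix A) := hAu.map _
  obtain ⟨v, hv⟩ : ∃ v : Fin (r + 1) → L, v = fun i => G 0 (algebraMap R L (x i)) := ⟨_, rfl⟩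
  obtain ⟨c, hc⟩ : ∃ c : Fin (r + 1) → L, c =
    Matrix.vecMul v ((algebraMap R L).mapMatrix A)⁻¹ := ⟨_, rfl⟩
  have hc' : Matrix.vecMul c ((algebraMap R L).mapMatrix A) = v := by
    rw [hc, Matrix.vecMul_vecMul, Matrix.nonsing_inv_mul _
      ((Matrix.isUnit_iff_isUnit_det _).1 hAu'), Matrix.vecMul_one]
  have h1 := Pool.Agent.W619.TW.der_zero (G 0 - ∑ j, c j • D' j)
    (fun i => algebraMap R L (x i)) (hx.algebraMap_comp (A := L)) (fun i => ?_) z
  · rw [Derivation.sub_apply, Pool.Agent.W308.PG.YLOC.der_sum_apply, sub_eq_zero, hG] at h1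
    have h2 : ∑ j, (c j • D' j) z = 0 := Finset.sum_eq_zero fun j _ => by
      change c j * D' j z = 0
      rw [hz, mul_zero]
    rw [h2, if_pos rfl] at h1
    exact one_ne_zero h1
  · rw [Derivation.sub_apply, Pool.Agent.W308.PG.YLOC.der_sum_apply, sub_eq_zero]
    have h3 := congrFun hc' i
    rw [hv] at h3
    change _ = G 0 (algebraMap R L (x i)) at h3
    rw [← h3]
    unfold Matrix.vecMul dotProduct
    refine Finset.sum_congr rfl fun j _ => ?_
    change c j * algebraMap R L (A j i) = c j * D' j (algebraMap R L (x i))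
    rw [hD', hA]
    rfl

end

section

variable {U R L : Type} [Field U] [Field R] [Field L] [Algebra ℂ U] [Algebra ℂ R] [Algebra ℂ L]
  [Algebra R L] [IsScalarTower ℂ R L] [FiniteDimensional R L] [Algebra.EssFiniteType ℂ U]
  [Algebra.EssFiniteType ℂ R] [Algebra.EssFiniteType ℂ L]

/-- **Finite covers of almost homogeneous varieties and curves.** -/
theorem no_curve {r g : ℕ} (hN : Algebra.trdeg ℂ R = (r + 1 : ℕ)) {S : Set (Place ℂ R)}
    {D : Fin (r + 1) → Derivation ℂ R R} (hD : SA.Homog S D) (hU : Algebra.trdeg ℂ U = 1)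
    (hg : 2 * Module.finrank R L < g) {x : Fin 1 → U} (hx : IsTranscendenceBasis ℂ x)
    (hsep : ∀ (Ω : Type) [Field Ω] [Algebra ℂ Ω] [IsAlgClosed Ω] (A : Finset (U →ₐ[ℂ] Ω)),
      A.card < g → ∀ c : (U →ₐ[ℂ] Ω) → Ω,
        (∀ f : U, GlobalForm 1 (fun D => (Matrix.of fun i j => D i (x j)).det * f) →
          ∑ σ ∈ A, c σ * σ f = 0) → ∀ σ ∈ A, c σ = 0)
    (y : U →ₐ[ℂ] L) (hy : IntermediateField.adjoin R (Set.range y) = ⊤) : False := by
  classical
  have hR0 : CharZero R := charZero_of_injective_algebraMap (algebraMap ℂ R).injective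
  choose D' hD' using fun j => exists_lift (L := L) hN (D j)
  have hx0 : Transcendental ℂ (x 0) := hx.1.transcendental 0
  have hyx : Transcendental ℂ (y (x 0)) := fun h =>
    hx0 ((isAlgebraic_algHom_iff y y.toRingHom.injective).1 h)
  obtain ⟨j, hj⟩ : ∃ j, D' j (y (x 0)) ≠ 0 := by
    by_contra h
    push Not at h
    exact hyx (all_zero hN hD.ind hD' h)
  obtain ⟨w, hw⟩ : ∃ w, w = D' j (y (x 0)) := ⟨_, rfl⟩
  rw [← hw] at hj
  have htr : ∀ f : U, GlobalForm 1 (fun D => (Matrix.of fun i j => D i (x j)).det * f) →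
      ∃ c : ℂ, algebraMap ℂ R c = Algebra.trace R L (w * y f) := by
    intro f hf
    have h1 : IsAlgebraic ℂ (Algebra.trace R L (w * y f)) := hD.const _ fun P hP => by
      refine Pool.Agent.Y692.NT.trace_reg P _ fun Q e hQ => ?_
      rw [hw]
      exact form_ge hU hN hQ (hD.div P hP) (hD.reg j P hP) (hD' j) y x hf.2
    obtain ⟨c, hc⟩ := Pool.Agent.W602.GT.const_of_algebraic h1
    exact ⟨c, hc.symm⟩
  -- two independent copies
  let Rc := AlgebraicClosure R
  obtain ⟨κ, iκ, iA, iC, Y, hY⟩ := SA.exists_big Rc (r + 1)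
  let iCκ : Algebra ℂ κ := ((algebraMap Rc κ).comp (algebraMap ℂ Rc)).toAlgebra
  have t1 : IsScalarTower ℂ Rc κ := IsScalarTower.of_algebraMap_eq fun _ => rfl
  obtain ⟨z, -, hz, -⟩ := exists_crd hN
  have hzc : IsTranscendenceBasis ℂ (fun i => algebraMap R Rc (z i)) :=
    hz.algebraMap_comp (A := Rc)
  have hYC : AlgebraicIndependent ℂ Y := hY.restrictScalars (algebraMap ℂ Rc).injective
  obtain ⟨ψ, hψ⟩ := SA.exists_emb (T := ℂ) hzc hYC
  let ι : Rc →ₐ[ℂ] κ := IsScalarTower.toAlgHom ℂ Rc κ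
  let e0 : (L →ₐ[R] Rc) → (U →ₐ[ℂ] Rc) := fun τ => (τ.restrictScalars ℂ).comp y
  have he0 : Function.Injective e0 := by
    intro τ τ' h
    let A : IntermediateField R L := Subalgebra.toIntermediateField (AlgHom.equalizer τ τ')
      (fun x hx => by
        rw [AlgHom.mem_equalizer] at hx ⊢
        rw [map_inv₀, map_inv₀, hx])
    have h1 : IntermediateField.adjoin R (Set.range y) ≤ A := by
      rw [IntermediateField.adjoin_le_iff]
      rintro _ ⟨u, rfl⟩
      exact DFunLike.congr_fun h u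
    refine AlgHom.ext fun z => ?_
    have h2 : z ∈ IntermediateField.adjoin R (Set.range y) := by
      rw [hy]
      trivial
    exact h1 h2
  let E : (L →ₐ[R] Rc) ⊕ (L →ₐ[R] Rc) → (U →ₐ[ℂ] κ) :=
    Sum.elim (fun τ => ι.comp (e0 τ)) (fun τ => ψ.comp (e0 τ))
  have hdisj : ∀ τ τ', ι.comp (e0 τ) ≠ ψ.comp (e0 τ') := by
    intro τ τ' h
    have h1 : ι (e0 τ (x 0)) = ψ (e0 τ' (x 0)) := DFunLike.congr_fun h (x 0)
    have h2 : AlgebraicIndependent ℂ (fun _ : Fin 1 => e0 τ (x 0)) := by
      refine algebraicIndependent_unique_type_iff.2 ?_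
      exact fun h => hx0 ((isAlgebraic_algHom_iff (e0 τ) (e0 τ).toRingHom.injective).1 h)
    have h3 := SA.indep_base (R := Rc) h2 hY ψ.fieldRange (fun s hs => by
      obtain ⟨s', rfl⟩ := hs
      have h4 : Algebra.IsAlgebraic (IntermediateField.adjoin ℂ
          (Set.range fun i => algebraMap R Rc (z i))) Rc := hzc.isAlgebraic_field
      refine Pool.Agent.U192.PE.alg_map ψ ?_ (h4.isAlgebraic s')
      rw [IntermediateField.adjoin_map, IntermediateField.adjoin_le_iff]
      rintro _ ⟨_, ⟨i, rfl⟩, rfl⟩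
      refine IntermediateField.subset_adjoin ℂ _ ⟨i, ?_⟩
      exact (hψ i).symm)
    have h5 := h3.transcendental 0
    refine h5 ?_
    have h6 : algebraMap Rc κ (e0 τ (x 0)) = algebraMap ψ.fieldRange κ
        ⟨ψ (e0 τ' (x 0)), ⟨_, rfl⟩⟩ := h1
    rw [h6]
    exact isAlgebraic_algebraMap _
  have hE : Function.Injective E := by
    rintro (τ | τ) (τ' | τ') h
    · congr 1
      refine he0 (AlgHom.ext fun u => ι.toRingHom.injective ?_)
      exact DFunLike.congr_fun h u
    · exact absurd h (hdisj τ τ')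
    · exact absurd h.symm (hdisj τ' τ)
    · congr 1
      refine he0 (AlgHom.ext fun u => ψ.toRingHom.injective ?_)
      exact DFunLike.congr_fun h u
  have hcard : Fintype.card (L →ₐ[R] Rc) = Module.finrank R L := AlgHom.card R L Rc
  let c : (U →ₐ[ℂ] κ) → κ := Function.extend E
    (Sum.elim (fun τ => ι (τ w)) (fun τ => - ψ (τ w))) 0
  have hmain := hsep κ (Finset.univ.image E) (by
    rw [Finset.card_image_of_injective _ hE, Finset.card_univ, Fintype.card_sum, hcard]
    omega) c (fun f hf => by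
      obtain ⟨a, ha⟩ := htr f hf
      rw [Finset.sum_image fun _ _ _ _ h => hE h, Fintype.sum_sum_type]
      have h1 : ∀ τ, c (E (Sum.inl τ)) * E (Sum.inl τ) f = ι (τ (w * y f)) := by
        intro τ
        change Function.extend E _ _ (E (Sum.inl τ)) * ι (τ (y f)) = _
        rw [hE.extend_apply, Sum.elim_inl, ← map_mul, ← map_mul]
      have h2 : ∀ τ, c (E (Sum.inr τ)) * E (Sum.inr τ) f = - ψ (τ (w * y f)) := by
        intro τ
        change Function.extend E _ _ (E (Sum.inr τ)) * ψ (τ (y f)) = _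
        rw [hE.extend_apply, Sum.elim_inr, neg_mul, ← map_mul, ← map_mul]
      have h3 : ∑ τ : L →ₐ[R] Rc, τ (w * y f) = algebraMap ℂ Rc a := by
        rw [← trace_eq_sum_embeddings Rc, ← ha, ← IsScalarTower.algebraMap_apply ℂ R Rc]
      simp only [h1, h2]
      rw [Finset.sum_neg_distrib, ← map_sum, ← map_sum, h3, AlgHom.commutes, AlgHom.commutes,
        add_neg_cancel])
  have τ0 : L →ₐ[R] Rc := IsAlgClosed.lift
  have h1 := hmain (E (Sum.inl τ0)) (Finset.mem_image_of_mem _ (Finset.mem_univ _))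
  change Function.extend E _ _ (E (Sum.inl τ0)) = 0 at h1
  rw [hE.extend_apply, Sum.elim_inl, map_eq_zero, map_eq_zero] at h1
  exact hj h1

end

end Pool.Agent.U393.LG
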