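import Pool.Agent.U393.LG.Core

/-!
A cover of small degree of a curve of small genus does not dominate a curve whose holomorphic
differentials separate many points.
-/

set_option autoImplicit false
set_option linter.overlappingInstances false
set_option linter.unusedSectionVars false

open FF Pool.Agent.W602.GT Pool.Agent.W603.LV Pool.Agent.W619.PQ Pool.Agent.Y172
open Pool.Agent.N162.BC (GlobalForm)

namespace Pool.Agent.U393.LG

/-- a relation between the values at many points -/
theorem exists_rel {R κ : Type} [Field R] [Field κ] [Algebra ℂ R] [Algebra ℂ κ] {b : ℕ}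
    (H : Submodule ℂ R) [FiniteDimensional ℂ H] (hb : Module.finrank ℂ H ≤ b)
    (ψ : Fin (b + 1) → (R →ₐ[ℂ] κ)) :
    ∃ l : Fin (b + 1) → κ, l ≠ 0 ∧ ∀ h ∈ H, ∑ s, l s * ψ s h = 0 := by
  classical
  let B := Module.finBasis ℂ H
  let f : (Fin (b + 1) → κ) →ₗ[κ] (Fin (Module.finrank ℂ H) → κ) :=
    LinearMap.pi fun i => ∑ s, (ψ s (B i : R)) • LinearMap.proj s
  have hf : ∀ l i, f l i = ∑ s, l s * ψ s (B i : R) := by
    intro l i
    change (∑ s, (ψ s (B i : R)) • (LinearMap.proj s : (Fin (b + 1) → κ) →ₗ[κ] κ)) l = _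
    rw [LinearMap.sum_apply]
    refine Finset.sum_congr rfl fun s _ => ?_
    rw [LinearMap.smul_apply, smul_eq_mul, mul_comm]
    rfl
  have hk : LinearMap.ker f ≠ ⊥ := LinearMap.ker_ne_bot_of_finrank_lt (by
    rw [Module.finrank_fin_fun, Module.finrank_fin_fun]
    omega)
  obtain ⟨l, hl, hl0⟩ := (Submodule.ne_bot_iff _).1 hk
  refine ⟨l, hl0, fun h hh => ?_⟩
  rw [LinearMap.mem_ker] at hl
  have h1 := B.sum_repr ⟨h, hh⟩
  have h2 : h = ∑ i, (B.repr ⟨h, hh⟩ i) • (B i : R) := by
    have h3 := congrArg Subtype.val h1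
    rw [AddSubmonoidClass.coe_finsetSum] at h3
    exact h3.symm
  rw [h2]
  have h4 : ∀ s, l s * ψ s (∑ i, (B.repr ⟨h, hh⟩ i) • (B i : R)) =
      ∑ i, algebraMap ℂ κ (B.repr ⟨h, hh⟩ i) * (l s * ψ s (B i : R)) := by
    intro s
    rw [map_sum, Finset.mul_sum]
    refine Finset.sum_congr rfl fun i _ => ?_
    rw [map_smul, Algebra.smul_def]
    ring
  simp only [h4]
  rw [Finset.sum_comm]
  refine Finset.sum_eq_zero fun i _ => ?_
  rw [← Finset.mul_sum, ← hf, hl]
  simp

section

variable {U R L : Type} [Field U] [Field R] [Field L] [Algebra ℂ U] [Algebra ℂ R] [Algebra ℂ L]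
  [Algebra R L] [IsScalarTower ℂ R L] [FiniteDimensional R L] [Algebra.EssFiniteType ℂ U]
  [Algebra.EssFiniteType ℂ R] [Algebra.EssFiniteType ℂ L]

/-- **Finite covers of curves of small genus.** -/
theorem no_curve_genus {b g : ℕ} (hN : Algebra.trdeg ℂ R = 1) {z : Fin 1 → R}
    (hz : IsTranscendenceBasis ℂ z) (H : Submodule ℂ R) [FiniteDimensional ℂ H]
    (hb : Module.finrank ℂ H ≤ b)
    (hH : ∀ f : R, GlobalForm 1 (fun D => (Matrix.of fun i j => D i (z j)).det * f) → f ∈ H)
    (hU : Algebra.trdeg ℂ U = 1)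
    (hg : (b + 1) * Module.finrank R L < g) {x : Fin 1 → U} (hx : IsTranscendenceBasis ℂ x)
    (hsep : ∀ (Ω : Type) [Field Ω] [Algebra ℂ Ω] [IsAlgClosed Ω] (A : Finset (U →ₐ[ℂ] Ω)),
      A.card < g → ∀ c : (U →ₐ[ℂ] Ω) → Ω,
        (∀ f : U, GlobalForm 1 (fun D => (Matrix.of fun i j => D i (x j)).det * f) →
          ∑ σ ∈ A, c σ * σ f = 0) → ∀ σ ∈ A, c σ = 0)
    (y : U →ₐ[ℂ] L) (hy : IntermediateField.adjoin R (Set.range y) = ⊤) : False := by
  classical
  have hR0 : CharZero R := charZero_of_injective_algebraMap (algebraMap ℂ R).injective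
  have hN' : Algebra.trdeg ℂ R = (1 : ℕ) := by exact_mod_cast hN
  obtain ⟨E0, hE0⟩ := Pool.Agent.W636.PG.exists_duals ℂ R 1 z hz
  choose E' hE' using fun i => exists_lift (L := L) hN' (E0 i)
  have hx0 : Transcendental ℂ (x 0) := hx.1.transcendental 0
  have hyx : Transcendental ℂ (y (x 0)) := fun h =>
    hx0 ((isAlgebraic_algHom_iff y y.toRingHom.injective).1 h)
  have hind : LinearIndependent R E0 := by
    rw [Fintype.linearIndependent_iff]
    intro c hc i
    have h1 := congrArg (fun G : Derivation ℂ R R => G (z i)) hc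
    simp only [Derivation.coe_zero, Pi.zero_apply] at h1
    rw [Pool.Agent.W308.PG.YLOC.der_sum_apply, Fin.sum_univ_one] at h1
    have hi : i = 0 := Subsingleton.elim _ _
    subst hi
    change c 0 * E0 0 (z 0) = 0 at h1
    rw [hE0, if_pos rfl, mul_one] at h1
    exact h1
  have hw0 : E' 0 (y (x 0)) ≠ 0 := by
    intro h
    refine hyx (all_zero (r := 0) hN' hind hE' fun j => ?_)
    have hj : j = (0 : Fin 1) := Subsingleton.elim (α := Fin 1) _ _
    rw [hj]
    exact h
  obtain ⟨w, hw⟩ : ∃ w, w = E' 0 (y (x 0)) := ⟨_, rfl⟩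
  rw [← hw] at hw0
  have htr : ∀ f : U, GlobalForm 1 (fun D => (Matrix.of fun i j => D i (x j)).det * f) →
      Algebra.trace R L (w * y f) ∈ H := by
    intro f hf
    refine hH _ ⟨fun A D => ?_, fun P hP G hG => ?_⟩
    · have h1 : (Matrix.of fun i j => (∑ l, A i l • D l) (z j)) =
          A * Matrix.of fun i j => D i (z j) := by
        ext i j
        rw [Matrix.of_apply, Matrix.mul_apply, Pool.Agent.W308.PG.YLOC.der_sum_apply]
        rfl
      change (Matrix.of fun i j => (∑ l, A i l • D l) (z j)).det * _ = _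
      rw [h1, Matrix.det_mul, pow_one, mul_assoc]
    · change Ge P 0 ((Matrix.of fun i j => G i (z j)).det * Algebra.trace R L (w * y f))
      rw [Matrix.det_fin_one, Matrix.of_apply, ← smul_eq_mul, ← map_smul]
      refine Pool.Agent.Y692.NT.trace_reg P _ fun Q e hQ => ?_
      have h1 : ∀ a, (algebraMap R L (G 0 (z 0)) • E' 0) (algebraMap R L a) =
          algebraMap R L (G 0 a) := by
        intro a
        have h2 := Pool.Agent.W73.PG.PULL.expand z hz E0 hE0 (G 0)
        rw [Fin.sum_univ_one] at h2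
        change algebraMap R L (G 0 (z 0)) * E' 0 (algebraMap R L a) = _
        rw [hE', ← map_mul]
        congr 1
        conv_rhs => rw [← h2]
        rfl
      have h2 := form_ge hU hN' hQ hP (hG 0) h1 y x hf.2
      have h3 : G 0 (z 0) • (w * y f) =
          (algebraMap R L (G 0 (z 0)) • E' 0) (y (x 0)) * y f := by
        rw [Algebra.smul_def, hw]
        change _ = algebraMap R L (G 0 (z 0)) * E' 0 (y (x 0)) * y f
        ring
      rw [h3]
      exact h2
  -- independent copies
  let Rc := AlgebraicClosure R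
  obtain ⟨κ, iκ, iC, iAC, Y, hY⟩ := SA.exists_big ℂ (b + 1)
  have hzc : IsTranscendenceBasis ℂ (fun i => algebraMap R Rc (z i)) :=
    hz.algebraMap_comp (A := Rc)
  have hYs : ∀ s, AlgebraicIndependent ℂ (fun _ : Fin 1 => Y s) := fun s =>
    hY.comp (fun _ : Fin 1 => s) (Function.injective_of_subsingleton _)
  choose ψ hψ using fun s => SA.exists_emb (T := ℂ) hzc (hYs s)
  let e0 : (L →ₐ[R] Rc) → (U →ₐ[ℂ] Rc) := fun τ => (τ.restrictScalars ℂ).comp y
  have he0 : Function.Injective e0 := by
    intro τ τ' h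
    let A : IntermediateField R L := Subalgebra.toIntermediateField (AlgHom.equalizer τ τ')
      (fun x hx => by
        rw [AlgHom.mem_equalizer] at hx ⊢
        rw [map_inv₀, map_inv₀, hx])
    have h1 : IntermediateField.adjoin R (Set.range y) ≤ A := by
      rw [IntermediateField.adjoin_le_iff]
      rintro _ ⟨u, rfl⟩
      exact DFunLike.congr_fun h u
    refine AlgHom.ext fun z => ?_
    have h2 : z ∈ IntermediateField.adjoin R (Set.range y) := by
      rw [hy]
      trivial
    exact h1 h2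
  let E : Fin (b + 1) × (L →ₐ[R] Rc) → (U →ₐ[ℂ] κ) := fun p => (ψ p.1).comp (e0 p.2)
  have hRc : Algebra.trdeg ℂ Rc = 1 := by
    rw [← hzc.cardinalMk_eq_trdeg]
    simp
  have hdisj : ∀ s s', s ≠ s' → ∀ τ τ', (ψ s).comp (e0 τ) ≠ (ψ s').comp (e0 τ') := by
    intro s s' hss τ τ' h
    have h1 : ψ s (e0 τ (x 0)) = ψ s' (e0 τ' (x 0)) := DFunLike.congr_fun h (x 0)
    have h2 : AlgebraicIndependent ℂ (fun _ : Fin 1 => e0 τ (x 0)) := by
      refine algebraicIndependent_unique_type_iff.2 ?_
      exact fun h => hx0 ((isAlgebraic_algHom_iff (e0 τ) (e0 τ).toRingHom.injective).1 h)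
    have h3 : IsTranscendenceBasis ℂ (fun _ : Fin 1 => e0 τ (x 0)) := by
      refine h2.isTranscendenceBasis_of_lift_trdeg_le_of_finite ?_
      rw [hRc]
      simp
    let A : IntermediateField ℂ κ :=
      (algebraicClosure (IntermediateField.adjoin ℂ {Y s'}) κ).restrictScalars ℂ
    have h4 : ∀ a : Rc, ψ s' a ∈ A := by
      intro a
      have h5 : Algebra.IsAlgebraic (IntermediateField.adjoin ℂ
          (Set.range fun i => algebraMap R Rc (z i))) Rc := hzc.isAlgebraic_field
      change ψ s' a ∈ algebraicClosure _ κ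
      rw [mem_algebraicClosure_iff]
      refine Pool.Agent.U192.PE.alg_map (ψ s') ?_ (h5.isAlgebraic a)
      rw [IntermediateField.adjoin_map, IntermediateField.adjoin_le_iff]
      rintro _ ⟨_, ⟨i, rfl⟩, rfl⟩
      refine IntermediateField.subset_adjoin ℂ _ ?_
      exact hψ s' i
    have h6 : ∀ a : Rc, IsAlgebraic A (ψ s a) := by
      intro a
      have h5 : Algebra.IsAlgebraic (IntermediateField.adjoin ℂ
          (Set.range fun _ : Fin 1 => e0 τ (x 0))) Rc := h3.isAlgebraic_field
      refine Pool.Agent.U192.PE.alg_map (ψ s) ?_ (h5.isAlgebraic a)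
      rw [IntermediateField.adjoin_map, IntermediateField.adjoin_le_iff]
      rintro _ ⟨_, ⟨i, rfl⟩, rfl⟩
      have h7 := h4 (e0 τ' (x 0))
      rw [← h1] at h7
      exact h7
    have h8 : IsAlgebraic (algebraicClosure (IntermediateField.adjoin ℂ {Y s'}) κ) (Y s) := by
      have h9 := h6 (algebraMap R Rc (z 0))
      rw [hψ s 0] at h9
      exact h9
    have h9 : IsAlgebraic (IntermediateField.adjoin ℂ {Y s'}) (Y s) :=
      h8.restrictScalars _
    have h10 := hY.transcendental_adjoin (s := {s'}) (i := s) (by simpa using hss)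
    rw [Set.image_singleton] at h10
    rw [IntermediateField.isAlgebraic_adjoin_iff] at h9
    exact h10 h9
  have hE : Function.Injective E := by
    rintro ⟨s, τ⟩ ⟨s', τ'⟩ h
    by_cases hs : s = s'
    · subst hs
      congr 1
      refine he0 (AlgHom.ext fun u => (ψ s).toRingHom.injective ?_)
      exact DFunLike.congr_fun h u
    · exact absurd h (hdisj s s' hs τ τ')
  obtain ⟨l, hl0, hl⟩ := exists_rel H hb (fun s => (ψ s).comp (IsScalarTower.toAlgHom ℂ R Rc))
  have hcard : Fintype.card (L →ₐ[R] Rc) = Module.finrank R L := AlgHom.card R L Rc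
  let c : (U →ₐ[ℂ] κ) → κ := Function.extend E (fun p => l p.1 * ψ p.1 (p.2 w)) 0
  have hmain := hsep κ (Finset.univ.image E) (by
    rw [Finset.card_image_of_injective _ hE, Finset.card_univ, Fintype.card_prod, hcard,
      Fintype.card_fin]
    exact hg) c (fun f hf => by
      have h0 := hl _ (htr f hf)
      rw [Finset.sum_image fun _ _ _ _ h => hE h, Fintype.sum_prod_type]
      rw [← h0]
      refine Finset.sum_congr rfl fun s _ => ?_
      have h1 : ∀ τ, c (E (s, τ)) * E (s, τ) f = l s * ψ s (τ (w * y f)) := by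
        intro τ
        change Function.extend E _ _ (E (s, τ)) * ψ s (τ (y f)) = _
        rw [hE.extend_apply]
        change l s * ψ s (τ w) * ψ s (τ (y f)) = _
        rw [mul_assoc, ← map_mul, ← map_mul]
      simp only [h1]
      rw [← Finset.mul_sum, ← map_sum, ← trace_eq_sum_embeddings Rc]
      rfl)
  have τ0 : L →ₐ[R] Rc := IsAlgClosed.lift
  apply hl0
  funext s
  have h1 := hmain (E (s, τ0)) (Finset.mem_image_of_mem _ (Finset.mem_univ _))
  change Function.extend E _ _ (E (s, τ0)) = 0 at h1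
  rw [hE.extend_apply] at h1
  change l s * ψ s (τ0 w) = 0 at h1
  refine (mul_eq_zero.1 h1).resolve_right ?_
  rw [map_eq_zero, map_eq_zero]
  exact hw0

end

end Pool.Agent.U393.LG
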