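import Pool.Agent.U393.LG.Lift
import Pool.Agent.U393.LG.Genus

/-!
The special set of a variety dominated by a product with curves.
-/

set_option autoImplicit false
set_option linter.overlappingInstances false
set_option linter.unusedSectionVars false

open FF Polynomial Pool.Agent.Y172
open Pool.Agent.N162.BC (GlobalForm)

namespace Pool.Agent.U393.LG

/-- The images of the rational maps, which are not constant, from the varieties of the class `C` to the
variety with the function field `K` are dense. -/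
def SpecialDense (C : ∀ (R : Type) [Field R] [Algebra ℂ R], Prop) (K : Type) [Field K]
    [Algebra ℂ K] : Prop :=
  ∀ F : Finset K, IntermediateField.adjoin ℂ (F : Set K) = ⊤ →
    ∃ (R : Type) (_ : Field R) (_ : Algebra ℂ R), C R ∧
      ∃ (f : Algebra.adjoin ℂ (F : Set K) →ₐ[ℂ] R) (z : Algebra.adjoin ℂ (F : Set K)),
        ∀ c : ℂ, f z ≠ algebraMap ℂ R c

/-- the holomorphic differentials of a curve separate fewer than `g` points -/
def Sep1 (U : Type) [Field U] [Algebra ℂ U] (g : ℕ) : Prop :=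
  ∃ x : Fin 1 → U, IsTranscendenceBasis ℂ x ∧
    ∀ (Ω : Type) [Field Ω] [Algebra ℂ Ω] [IsAlgClosed Ω] (A : Finset (U →ₐ[ℂ] Ω)),
      A.card < g → ∀ c : (U →ₐ[ℂ] Ω) → Ω,
        (∀ f : U, GlobalForm 1 (fun D => (Matrix.of fun i j => D i (x j)).det * f) →
          ∑ σ ∈ A, c σ * σ f = 0) → ∀ σ ∈ A, c σ = 0

/-- almost homogeneous varieties over `ℂ` -/
def AlmHom (R : Type) [Field R] [Algebra ℂ R] : Prop :=
  Algebra.EssFiniteType ℂ R ∧ ∃ r : ℕ, Algebra.trdeg ℂ R = (r + 1 : ℕ) ∧
    SA.AlmostHomogeneous ℂ R r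

section

variable {U R L : Type} [Field U] [Field R] [Field L] [Algebra ℂ U] [Algebra ℂ R] [Algebra ℂ L]
  [Algebra R L] [IsScalarTower ℂ R L] [FiniteDimensional R L]

/-- no embeddings of the function fields of the curves -/
theorem no_emb {g : ℕ} (hR : AlmHom R) (hU : Algebra.trdeg ℂ U = 1)
    (hUe : Algebra.EssFiniteType ℂ U) (hsep : Sep1 U g) (hg : 2 * Module.finrank R L < g)
    (y : U →ₐ[ℂ] L) : False := by
  obtain ⟨hRe, r, hN, S, D, hD⟩ := hR
  obtain ⟨x, hx, hs⟩ := hsep
  let L2 : IntermediateField R L := IntermediateField.adjoin R (Set.range y)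
  have hmem : ∀ u, y u ∈ L2 := fun u => IntermediateField.subset_adjoin R _ ⟨u, rfl⟩
  let y2 : U →ₐ[ℂ] L2 :=
    { y.toRingHom.codRestrict L2.toSubfield hmem with
      commutes' := fun c => Subtype.ext (by
        change y (algebraMap ℂ U c) = algebraMap ℂ L c
        exact y.commutes c) }
  have hfin : FiniteDimensional R L2 := inferInstance
  have hL2 : Algebra.EssFiniteType ℂ L2 := Algebra.EssFiniteType.comp ℂ R L2
  have hle : Module.finrank R L2 ≤ Module.finrank R L := Submodule.finrank_le L2.toSubmodule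
  refine no_curve (L := L2) hN hD hU (by omega) hx hs y2 ?_
  rw [eq_top_iff]
  intro z _
  have h1 : (z : L) ∈ IntermediateField.adjoin R (Set.range y) := z.2
  have h2 : IntermediateField.adjoin R (Set.range y) ≤
      (IntermediateField.adjoin R (Set.range y2)).map L2.val := by
    rw [IntermediateField.adjoin_map]
    refine IntermediateField.adjoin.mono R _ _ ?_
    rintro _ ⟨u, rfl⟩
    exact ⟨y2 u, ⟨u, rfl⟩, rfl⟩
  obtain ⟨w, hw, hwz⟩ := h2 h1
  have h3 : w = z := Subtype.ext hwz
  rw [← h3]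
  exact hw

/-- a curve of genus at most `b` -/
def GenusLe (b : ℕ) (R : Type) [Field R] [Algebra ℂ R] : Prop :=
  Algebra.EssFiniteType ℂ R ∧ Algebra.trdeg ℂ R = 1 ∧ ∃ z : Fin 1 → R, IsTranscendenceBasis ℂ z ∧
    ∃ H : Submodule ℂ R, FiniteDimensional ℂ H ∧ Module.finrank ℂ H ≤ b ∧
      ∀ f : R, GlobalForm 1 (fun D => (Matrix.of fun i j => D i (z j)).det * f) → f ∈ H

/-- no embeddings of the function fields of the curves -/
theorem no_emb_genus {b g : ℕ} (hR : GenusLe b R) (hU : Algebra.trdeg ℂ U = 1)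
    (hUe : Algebra.EssFiniteType ℂ U) (hsep : Sep1 U g)
    (hg : (b + 1) * Module.finrank R L < g)
    (y : U →ₐ[ℂ] L) : False := by
  obtain ⟨hRe, hN, z, hz, H, hHf, hHb, hH⟩ := hR
  obtain ⟨x, hx, hs⟩ := hsep
  let L2 : IntermediateField R L := IntermediateField.adjoin R (Set.range y)
  have hmem : ∀ u, y u ∈ L2 := fun u => IntermediateField.subset_adjoin R _ ⟨u, rfl⟩
  let y2 : U →ₐ[ℂ] L2 :=
    { y.toRingHom.codRestrict L2.toSubfield hmem with
      commutes' := fun c => Subtype.ext (by
        change y (algebraMap ℂ U c) = algebraMap ℂ L c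
        exact y.commutes c) }
  have hfin : FiniteDimensional R L2 := inferInstance
  have hL2 : Algebra.EssFiniteType ℂ L2 := Algebra.EssFiniteType.comp ℂ R L2
  have hle : Module.finrank R L2 ≤ Module.finrank R L := Submodule.finrank_le L2.toSubmodule
  refine no_curve_genus (L := L2) hN hz H hHb hH hU
    (lt_of_le_of_lt (Nat.mul_le_mul_left _ hle) hg) hx hs y2 ?_
  rw [eq_top_iff]
  intro z _
  have h1 : (z : L) ∈ IntermediateField.adjoin R (Set.range y) := z.2
  have h2 : IntermediateField.adjoin R (Set.range y) ≤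
      (IntermediateField.adjoin R (Set.range y2)).map L2.val := by
    rw [IntermediateField.adjoin_map]
    refine IntermediateField.adjoin.mono R _ _ ?_
    rintro _ ⟨u, rfl⟩
    exact ⟨y2 u, ⟨u, rfl⟩, rfl⟩
  obtain ⟨w, hw, hwz⟩ := h2 h1
  have h3 : w = z := Subtype.ext hwz
  rw [← h3]
  exact hw

/-- values on the curves are constant -/
theorem const_curve (hno : (U →ₐ[ℂ] L) → False) (hU : Algebra.trdeg ℂ U = 1)
    {s : Set U} (hs : IntermediateField.adjoin ℂ s = ⊤) (γ : Algebra.adjoin ℂ s →ₐ[ℂ] L)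
    (u : Algebra.adjoin ℂ s) : γ u ∈ (⊥ : IntermediateField ℂ L) := by
  classical
  by_contra hu
  have htr : Transcendental ℂ (γ u) := by
    intro h
    obtain ⟨c, hc⟩ := Pool.Agent.W602.GT.const_of_algebraic h
    exact hu ⟨c, hc.symm⟩
  have htu : Transcendental ℂ (u : U) := by
    intro h
    have h1 : IsAlgebraic ℂ u := by
      have h2 : IsAlgebraic ℂ ((Algebra.adjoin ℂ s).val u) := h
      exact (isAlgebraic_algHom_iff _ Subtype.val_injective).1 h2
    exact htr (h1.algHom γ)
  have hb : IsTranscendenceBasis ℂ (fun _ : Fin 1 => (u : U)) := by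
    refine (algebraicIndependent_unique_type_iff.2 htu).isTranscendenceBasis_of_lift_trdeg_le_of_finite ?_
    rw [hU]
    simp
  have hinj : Function.Injective γ := by
    rw [injective_iff_map_eq_zero]
    intro a ha
    by_contra ha0
    have h1 : IsAlgebraic (Algebra.adjoin ℂ (Set.range fun _ : Fin 1 => (u : U))) (a : U) :=
      hb.isAlgebraic.isAlgebraic _
    obtain ⟨P, hP0, hP⟩ := h1.exists_nonzero_coeff_and_aeval_eq_zero
      (mem_nonZeroDivisors_of_ne_zero fun h => ha0 (Subtype.ext h))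
    -- lift the coefficients to polynomials in `u`
    have hle : Algebra.adjoin ℂ (Set.range fun _ : Fin 1 => (u : U)) ≤ Algebra.adjoin ℂ s := by
      rw [Algebra.adjoin_le_iff]
      rintro _ ⟨_, rfl⟩
      exact u.2
    let j := Subalgebra.inclusion hle
    have h2 : Polynomial.eval₂ (j : _ →+* Algebra.adjoin ℂ s) a P = 0 := by
      apply Subtype.ext
      have h3 := Polynomial.hom_eval₂ P (j : _ →+* Algebra.adjoin ℂ s)
        ((Algebra.adjoin ℂ s).val : _ →+* U) a
      rw [show (((Polynomial.eval₂ (j : _ →+* Algebra.adjoin ℂ s) a P : Algebra.adjoin ℂ s) : U)) =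
        ((Algebra.adjoin ℂ s).val : _ →+* U) (Polynomial.eval₂ (j : _ →+* Algebra.adjoin ℂ s) a P)
        from rfl, h3]
      exact hP
    have h4 := congrArg γ h2
    rw [map_zero] at h4
    have h5 := Polynomial.hom_eval₂ P (j : _ →+* Algebra.adjoin ℂ s)
      (γ : Algebra.adjoin ℂ s →+* L) a
    rw [show γ (Polynomial.eval₂ (j : _ →+* Algebra.adjoin ℂ s) a P) =
      (γ : Algebra.adjoin ℂ s →+* L) (Polynomial.eval₂ (j : _ →+* Algebra.adjoin ℂ s) a P)
      from rfl, h5, show (γ : Algebra.adjoin ℂ s →+* L) a = 0 from ha] at h4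
    rw [Polynomial.eval₂_at_zero] at h4
    have h6 : (P.coeff 0 : U) ∈ Algebra.adjoin ℂ {(u : U)} := by
      have h7 : ∀ S : Set U, S = Set.range (fun _ : Fin 1 => (u : U)) →
          (P.coeff 0 : U) ∈ Algebra.adjoin ℂ S := by
        rintro _ rfl
        exact (P.coeff 0).2
      exact h7 _ Set.range_const.symm
    rw [Algebra.adjoin_singleton_eq_range_aeval] at h6
    obtain ⟨p, hp⟩ := h6
    have h8 : j (P.coeff 0) = Polynomial.aeval u p := by
      apply Subtype.ext
      change ((P.coeff 0 : _) : U) = (Algebra.adjoin ℂ s).val (Polynomial.aeval u p)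
      rw [← Polynomial.aeval_algHom_apply]
      exact hp.symm
    have h9 : Polynomial.aeval (γ u) p = 0 := by
      rw [Polynomial.aeval_algHom_apply, ← h8]
      exact h4
    have h10 : p = 0 := (transcendental_iff.1 htr) p h9
    apply hP0
    apply Subtype.ext
    rw [← hp, h10]
    simp
  have hfr : IsFractionRing (Algebra.adjoin ℂ s) U := by
    refine IsFractionRing.of_field _ _ fun z => ?_
    have h1 : z ∈ IntermediateField.adjoin ℂ s := by
      rw [hs]
      trivial
    rw [IntermediateField.mem_adjoin_iff_div] at h1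
    obtain ⟨a, ha, b, hb, hab⟩ := h1
    exact ⟨⟨a, ha⟩, ⟨b, hb⟩, hab⟩
  let y : U →ₐ[ℂ] L := IsFractionRing.liftAlgHom (g := γ) hinj
  exact hno y

end

end Pool.Agent.U393.LG
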