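import Pool.Agent.U393.LG.Core

/-!
Lifting of rational maps to a finite cover.
-/

set_option autoImplicit false
set_option linter.overlappingInstances false
set_option linter.unusedSectionVars false

open Polynomial

namespace Pool.Agent.U393.LG

section

variable {K V : Type} [Field K] [Field V] [Algebra ℂ K] [Algebra ℂ V] [Algebra K V]
  [IsScalarTower ℂ K V] [FiniteDimensional K V]

/-- the polynomials in `θ` with coefficients in `B` -/
noncomputable def ev (B : Subalgebra ℂ K) (θ : V) : B[X] →ₐ[ℂ] V :=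
  (Polynomial.aeval θ : K[X] →ₐ[K] V).restrictScalars ℂ |>.comp
    (Polynomial.mapAlgHom (B.val))

theorem ev_apply (B : Subalgebra ℂ K) (θ : V) (P : B[X]) :
    ev B θ P = Polynomial.aeval θ (P.map (algebraMap B K)) := rfl

/-- **Lifting.** -/
theorem lift_hom (B : Subalgebra ℂ K) (θ : V) (q : B[X]) (hq : q.Monic)
    (hqθ : q.map (algebraMap B K) = minpoly K θ) {R : Type} [Field R] [Algebra ℂ R]
    (f : B →ₐ[ℂ] R) :
    ∃ (L : Type) (_ : Field L) (_ : Algebra ℂ L) (_ : Algebra R L), IsScalarTower ℂ R L ∧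
      FiniteDimensional R L ∧ Module.finrank R L ≤ q.natDegree ∧
      ∃ g : (ev B θ).range →ₐ[ℂ] L, ∀ b : B, g ⟨ev B θ (C b), ⟨_, rfl⟩⟩ = algebraMap R L (f b) := by
  classical
  have hdeg : 0 < q.natDegree := by
    have h1 := minpoly.natDegree_pos (IsIntegral.of_finite K θ)
    rw [← hqθ, hq.natDegree_map] at h1
    exact h1
  obtain ⟨p, hp, hpq⟩ := Polynomial.exists_irreducible_of_natDegree_pos
    (f := q.map (f : B →+* R)) (by rw [hq.natDegree_map]; exact hdeg)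
  have hfact : Fact (Irreducible p) := ⟨hp⟩
  have hfin : FiniteDimensional R (AdjoinRoot p) := (AdjoinRoot.powerBasis hp.ne_zero).finite
  have hrank : Module.finrank R (AdjoinRoot p) = p.natDegree := by
    rw [(AdjoinRoot.powerBasis hp.ne_zero).finrank, AdjoinRoot.powerBasis_dim]
  obtain ⟨ρ, hρ⟩ : ∃ ρ : AdjoinRoot p, ρ = AdjoinRoot.root p := ⟨_, rfl⟩
  have hroot : (q.map (f : B →+* R)).eval₂ (algebraMap R (AdjoinRoot p)) ρ = 0 := by
    obtain ⟨s, hs⟩ := hpq
    rw [hs, eval₂_mul, hρ]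
    have h1 := AdjoinRoot.eval₂_root p
    rw [show (algebraMap R (AdjoinRoot p)) = AdjoinRoot.of p from rfl, h1, zero_mul]
  let F : B →ₐ[ℂ] AdjoinRoot p := (IsScalarTower.toAlgHom ℂ R (AdjoinRoot p)).comp f
  let η : B[X] →ₐ[ℂ] AdjoinRoot p := { Polynomial.eval₂RingHom (F : B →+* AdjoinRoot p) ρ with
    commutes' := fun c => by
      change Polynomial.eval₂ (F : B →+* AdjoinRoot p) ρ (C (algebraMap ℂ B c)) = _
      rw [eval₂_C]
      exact F.commutes c }
  have hη : ∀ P : B[X], η P = P.eval₂ (F : B →+* AdjoinRoot p) ρ := fun _ => rfl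
  have hηq : η q = 0 := by
    rw [hη]
    rw [eval₂_map] at hroot
    exact hroot
  have hker : ∀ P : B[X], ev B θ P = 0 → η P = 0 := by
    intro P hP
    rw [ev_apply] at hP
    have h1 := minpoly.dvd K θ hP
    rw [← hqθ, Polynomial.map_dvd_map _ Subtype.val_injective hq] at h1
    obtain ⟨s, rfl⟩ := h1
    rw [map_mul, hηq, zero_mul]
  let φ : B[X] →ₐ[ℂ] (ev B θ).range := (ev B θ).rangeRestrict
  have hsurj : Function.Surjective φ := AlgHom.rangeRestrict_surjective _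
  have hI : ∀ P : B[X], P ∈ RingHom.ker φ → η P = 0 := fun P hP => hker P (by
    have h1 := congrArg Subtype.val ((RingHom.mem_ker).1 hP)
    exact h1)
  let g : (ev B θ).range →ₐ[ℂ] AdjoinRoot p :=
    (Ideal.Quotient.liftₐ (RingHom.ker φ) η hI).comp
      (Ideal.quotientKerAlgEquivOfSurjective hsurj).symm.toAlgHom
  have hg : ∀ P : B[X], g (φ P) = η P := by
    intro P
    have h1 : (Ideal.quotientKerAlgEquivOfSurjective hsurj).symm (φ P) =
        Ideal.Quotient.mk (RingHom.ker φ) P := by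
      rw [AlgEquiv.symm_apply_eq]
      rfl
    change Ideal.Quotient.liftₐ (RingHom.ker φ) η hI
      ((Ideal.quotientKerAlgEquivOfSurjective hsurj).symm (φ P)) = _
    rw [h1]
    rfl
  refine ⟨AdjoinRoot p, inferInstance, inferInstance, inferInstance, inferInstance, hfin, ?_, g,
    fun b => ?_⟩
  · rw [hrank, ← hq.natDegree_map (f : B →+* R)]
    exact Polynomial.natDegree_le_of_dvd hpq (hq.map _).ne_zero
  · have h1 := hg (C b)
    rw [hη, eval₂_C] at h1
    exact h1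

/-- coefficients -/
theorem exists_coef {θ : V} (hθ : IntermediateField.adjoin K {θ} = ⊤) (e : V) :
    ∃ P : K[X], Polynomial.aeval θ P = e := by
  have h1 : e ∈ (IntermediateField.adjoin K {θ}).toSubalgebra := by
    rw [hθ]
    trivial
  rw [IntermediateField.adjoin_simple_toSubalgebra_of_isAlgebraic
    (Algebra.IsAlgebraic.isAlgebraic θ), Algebra.adjoin_singleton_eq_range_aeval] at h1
  exact h1

theorem mem_ev (B : Subalgebra ℂ K) (θ : V) {P : K[X]} (hP : ∀ c ∈ P.coeffs, c ∈ B) :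
    Polynomial.aeval θ P ∈ (ev B θ).range := by
  have h1 : P ∈ Polynomial.lifts (algebraMap B K) := by
    rw [Polynomial.lifts_iff_coeff_lifts]
    intro n
    by_cases hn : P.coeff n = 0
    · exact ⟨0, by rw [hn, map_zero]⟩
    · exact ⟨⟨_, hP _ (Polynomial.coeff_mem_coeffs hn)⟩, rfl⟩
  obtain ⟨Q, hQ⟩ := h1
  refine ⟨Q, ?_⟩
  change ev B θ Q = _
  rw [ev_apply]
  congr 1

/-- denominators -/
theorem exists_den (S : Set V) {z : V} (hz : z ∈ IntermediateField.adjoin ℂ S) :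
    ∃ d ∈ Algebra.adjoin ℂ S, d ≠ 0 ∧ z * d ∈ Algebra.adjoin ℂ S := by
  rw [IntermediateField.mem_adjoin_iff_div] at hz
  obtain ⟨r, hr, s, hs, rfl⟩ := hz
  by_cases h0 : s = 0
  · refine ⟨1, Subalgebra.one_mem _, one_ne_zero, ?_⟩
    rw [h0, div_zero, zero_mul]
    exact Subalgebra.zero_mem _
  · refine ⟨s, hs, h0, ?_⟩
    rw [div_mul_cancel₀ _ h0]
    exact hr

end

section

variable {V L : Type} [Field V] [Algebra ℂ V] [Field L] [Algebra ℂ L]

/-- the elements with values in `W` -/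
noncomputable def Zs {A : Subalgebra ℂ V} (g : A →ₐ[ℂ] L) (W : IntermediateField ℂ L) :
    Subalgebra ℂ V :=
  (W.toSubalgebra.comap g).map A.val

theorem mem_Zs {A : Subalgebra ℂ V} (g : A →ₐ[ℂ] L) (W : IntermediateField ℂ L) {z : V} :
    z ∈ Zs g W ↔ ∃ h : z ∈ A, g ⟨z, h⟩ ∈ W := by
  constructor
  · rintro ⟨w, hw, rfl⟩
    exact ⟨w.2, hw⟩
  · rintro ⟨h, hw⟩
    exact ⟨⟨z, h⟩, hw, rfl⟩

theorem div_Zs {A : Subalgebra ℂ V} (g : A →ₐ[ℂ] L) (W : IntermediateField ℂ L) {a d : V}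
    (ha : a ∈ A) (hd0 : d ≠ 0) (hd : d ∈ Zs g W) (hd' : d⁻¹ ∈ A) (had : a * d ∈ Zs g W) :
    a ∈ Zs g W := by
  rw [mem_Zs] at hd had ⊢
  obtain ⟨h1, h2⟩ := hd
  obtain ⟨h3, h4⟩ := had
  refine ⟨ha, ?_⟩
  have h5 : g ⟨d, h1⟩ * g ⟨d⁻¹, hd'⟩ = 1 := by
    rw [← map_mul, ← map_one g]
    congr 1
    exact Subtype.ext (mul_inv_cancel₀ hd0)
  have h6 : g ⟨d, h1⟩ ≠ 0 := left_ne_zero_of_mul_eq_one h5
  have h7 : g ⟨a, ha⟩ * g ⟨d, h1⟩ = g ⟨a * d, h3⟩ := by
    rw [← map_mul]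
    rfl
  have h8 : g ⟨a, ha⟩ = g ⟨a * d, h3⟩ / g ⟨d, h1⟩ := by
    rw [← h7, mul_div_cancel_right₀ _ h6]
  rw [h8]
  exact W.div_mem h4 h2

end

end Pool.Agent.U393.LG
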