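import Pool.Agent.U393.LG.Down

/-!
The special set of a variety dominated by a product with curves.
-/

set_option autoImplicit false
set_option linter.overlappingInstances false
set_option linter.unusedSectionVars false

open Polynomial

namespace Pool.Agent.U393.LG

theorem gen_le {V : Type} [Field V] [Algebra ℂ V] (U : IntermediateField ℂ V) {s : Set U}
    (hs : IntermediateField.adjoin ℂ s = ⊤) {W : IntermediateField ℂ V}
    (hW : ∀ z ∈ s, (z : V) ∈ W) : U ≤ W := by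
  intro z hz
  have h1 : IntermediateField.adjoin ℂ s ≤ W.comap U.val := by
    rw [IntermediateField.adjoin_le_iff]
    exact hW
  have h2 : (⟨z, hz⟩ : U) ∈ IntermediateField.adjoin ℂ s := by
    rw [hs]
    trivial
  exact h1 h2

section

variable {K V : Type} [Field K] [Field V] [Algebra ℂ K] [Algebra ℂ V] [Algebra K V]
  [IsScalarTower ℂ K V] [FiniteDimensional K V] [Algebra.EssFiniteType ℂ V]

/-- **The special set of the factor.** -/
theorem down {C : ∀ (R : Type) [Field R] [Algebra ℂ R], Prop}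
    {k : ℕ} (U : Fin k → IntermediateField ℂ V) (T : IntermediateField ℂ V)
    (hC : ∀ (R : Type) [Field R] [Algebra ℂ R], C R → ∀ (i : Fin k) (L : Type) [Field L]
      [Algebra ℂ L] [Algebra R L] [IsScalarTower ℂ R L] [FiniteDimensional R L],
      Module.finrank R L ≤ Module.finrank K V → (U i →ₐ[ℂ] L) → False)
    (hsup : (⨆ i, U i) ⊔ T = ⊤) (hU : ∀ i, Algebra.trdeg ℂ (U i) = 1)
    (hKV : IntermediateField.adjoin K (⋃ i, (U i : Set V)) = ⊤) (hK : SpecialDense C K) :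
    SpecialDense C T := by
  classical
  intro G hG
  have hcK : CharZero K := charZero_of_injective_algebraMap (algebraMap ℂ K).injective
  have hKe : Algebra.EssFiniteType ℂ K := Pool.Agent.TH466.QG.ess_below (K := V)
  have hUe : ∀ i, Algebra.EssFiniteType ℂ (U i) := fun i => Pool.Agent.N999.SX.ess_any (U i)
  have hfg : ∀ i, ∃ s : Finset (U i), IntermediateField.adjoin ℂ (s : Set (U i)) = ⊤ := fun i =>
    IntermediateField.fg_top_iff.2 (hUe i)
  choose Ug hUg using hfg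
  obtain ⟨F00, hF00⟩ : ∃ s : Finset K, IntermediateField.adjoin ℂ (s : Set K) = ⊤ :=
    IntermediateField.fg_top_iff.2 hKe
  obtain ⟨u, hu⟩ : ∃ u : Finset V, u = Finset.univ.biUnion fun i => (Ug i).image Subtype.val :=
    ⟨_, rfl⟩
  obtain ⟨t, ht⟩ : ∃ t : Finset V, t = G.image Subtype.val := ⟨_, rfl⟩
  have hu1 : ∀ i, ∀ w ∈ Ug i, (w : V) ∈ u := by
    intro i w hw
    rw [hu]
    exact Finset.mem_biUnion.2 ⟨i, Finset.mem_univ _, Finset.mem_image_of_mem _ hw⟩
  have hUle : ∀ (W : IntermediateField ℂ V), (u : Set V) ⊆ W → ∀ i, U i ≤ W := fun W hW i =>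
    gen_le (U i) (hUg i) fun w hw => hW (hu1 i w hw)
  have htu : IntermediateField.adjoin ℂ ((t : Set V) ∪ u) = ⊤ := by
    rw [eq_top_iff, ← hsup]
    refine sup_le (iSup_le fun i => hUle _ (fun w hw =>
      IntermediateField.subset_adjoin ℂ _ (Or.inr hw)) i) (gen_le T hG fun w hw => ?_)
    refine IntermediateField.subset_adjoin ℂ _ (Or.inl ?_)
    rw [ht]
    exact Finset.mem_image_of_mem _ hw
  obtain ⟨θ, hθ⟩ := Field.exists_primitive_element K V
  choose cf hcf using exists_coef (K := K) hθ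
  obtain ⟨F0, hF0⟩ : ∃ F0 : Finset K, F0 = (F00 ∪ (minpoly K θ).coeffs) ∪
    (t ∪ u).biUnion fun e => (cf e).coeffs := ⟨_, rfl⟩
  have hF0a : ∀ c ∈ F00, c ∈ F0 := fun c hc => by
    rw [hF0]
    exact Finset.mem_union_left _ (Finset.mem_union_left _ hc)
  have hF0b : ∀ c ∈ (minpoly K θ).coeffs, c ∈ F0 := fun c hc => by
    rw [hF0]
    exact Finset.mem_union_left _ (Finset.mem_union_right _ hc)
  have hF0c : ∀ e ∈ t ∪ u, ∀ c ∈ (cf e).coeffs, c ∈ F0 := fun e he c hc => by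
    rw [hF0]
    exact Finset.mem_union_right _ (Finset.mem_biUnion.2 ⟨e, he, hc⟩)
  have hF0top : IntermediateField.adjoin ℂ (F0 : Set K) = ⊤ := by
    rw [eq_top_iff, ← hF00]
    exact IntermediateField.adjoin.mono ℂ _ _ fun c hc => hF0a c hc
  let κ : K →ₐ[ℂ] V := IsScalarTower.toAlgHom ℂ K V
  have hFu : IntermediateField.adjoin ℂ (κ '' F0 ∪ u) = ⊤ := by
    obtain ⟨W, hW⟩ : ∃ W, W = IntermediateField.adjoin ℂ (κ '' F0 ∪ u) := ⟨_, rfl⟩
    rw [← hW]
    have h1 : ∀ x : K, algebraMap K V x ∈ W.toSubfield := by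
      intro x
      have h2 : IntermediateField.adjoin ℂ (F0 : Set K) ≤ W.comap κ := by
        rw [IntermediateField.adjoin_le_iff]
        intro c hc
        change κ c ∈ W
        rw [hW]
        exact IntermediateField.subset_adjoin ℂ _ (Or.inl ⟨c, hc, rfl⟩)
      have h3 : x ∈ IntermediateField.adjoin ℂ (F0 : Set K) := by
        rw [hF0top]
        trivial
      exact h2 h3
    let W' : IntermediateField K V := W.toSubfield.toIntermediateField h1
    have h2 : IntermediateField.adjoin K (⋃ i, (U i : Set V)) ≤ W' := by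
      rw [IntermediateField.adjoin_le_iff]
      refine Set.iUnion_subset fun i => ?_
      exact hUle W (fun w hw => by
        rw [hW]
        exact IntermediateField.subset_adjoin ℂ _ (Or.inr hw)) i
    rw [eq_top_iff]
    intro z _
    have h3 : z ∈ IntermediateField.adjoin K (⋃ i, (U i : Set V)) := by
      rw [hKV]
      trivial
    exact h2 h3
  -- denominators
  have hd1 : ∀ φ : K, ∃ d ∈ Algebra.adjoin ℂ ((t : Set V) ∪ u), d ≠ 0 ∧
      κ φ * d ∈ Algebra.adjoin ℂ ((t : Set V) ∪ u) := fun φ => exists_den _ (by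
    rw [htu]
    trivial)
  choose d1 hd1 using hd1
  have hd2 : ∀ τ : V, ∃ d ∈ Algebra.adjoin ℂ (κ '' F0 ∪ u), d ≠ 0 ∧
      τ * d ∈ Algebra.adjoin ℂ (κ '' F0 ∪ u) := fun φ => exists_den _ (by
    rw [hFu]
    trivial)
  choose d2 hd2 using hd2
  have hd3 : ∀ c : K, ∃ d ∈ Algebra.adjoin ℂ (F0 : Set K), d ≠ 0 ∧
      c * d ∈ Algebra.adjoin ℂ (F0 : Set K) := fun φ => exists_den _ (by
    rw [hF0top]
    trivial)
  choose d3 hd3 using hd3
  obtain ⟨Dn, hDn⟩ : ∃ Dn : Finset V, Dn = F0.image d1 ∪ t.image d2 := ⟨_, rfl⟩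
  obtain ⟨F, hF⟩ : ∃ F : Finset K, F = F0 ∪ Dn.biUnion fun d =>
    (cf d⁻¹).coeffs.image fun c => (d3 c)⁻¹ := ⟨_, rfl⟩
  have hF0F : (F0 : Set K) ⊆ F := fun c hc => by
    rw [hF]
    exact Finset.mem_union_left _ hc
  have hFd : ∀ d ∈ Dn, ∀ c ∈ (cf d⁻¹).coeffs, (d3 c)⁻¹ ∈ F := fun d hd c hc => by
    rw [hF]
    exact Finset.mem_union_right _ (Finset.mem_biUnion.2 ⟨d, hd, Finset.mem_image_of_mem _ hc⟩)
  have hFtop : IntermediateField.adjoin ℂ (F : Set K) = ⊤ := by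
    rw [eq_top_iff, ← hF0top]
    exact IntermediateField.adjoin.mono ℂ _ _ hF0F
  obtain ⟨R, iR, iRC, hCR, f, z, hz⟩ := hK F hFtop
  obtain ⟨B, hB⟩ : ∃ B, B = Algebra.adjoin ℂ (F : Set K) := ⟨_, rfl⟩
  revert f z
  rw [← hB]
  intro f z hz
  have hB0 : Algebra.adjoin ℂ (F0 : Set K) ≤ B := by
    rw [hB]
    exact Algebra.adjoin_mono hF0F
  have hFB : ∀ c ∈ F, c ∈ B := fun c hc => by
    rw [hB]
    exact Algebra.subset_adjoin hc
  have hlift : minpoly K θ ∈ Polynomial.lifts (algebraMap B K) := by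
    rw [Polynomial.lifts_iff_coeff_lifts]
    intro n
    by_cases hn : (minpoly K θ).coeff n = 0
    · exact ⟨0, by rw [hn, map_zero]⟩
    · exact ⟨⟨_, hFB _ (hF0F (hF0b _ (Polynomial.coeff_mem_coeffs hn)))⟩, rfl⟩
  obtain ⟨q, hq1, hq2, hq3⟩ := Polynomial.lifts_and_natDegree_eq_and_monic hlift
    (minpoly.monic (IsIntegral.of_finite K θ))
  obtain ⟨L, iL, iLC, iLR, hT, hfin, hrank, g', hg'⟩ := lift_hom B θ q hq3 hq1 f
  have hrank' : Module.finrank R L ≤ Module.finrank K V := by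
    rw [hq2, (Field.primitive_element_iff_minpoly_natDegree_eq K θ).1 hθ] at hrank
    exact hrank
  obtain ⟨A, hA⟩ : ∃ A, A = (ev B θ).range := ⟨_, rfl⟩
  have hAB : ∀ b : B, κ b ∈ A := fun b => by
    rw [hA]
    exact ⟨Polynomial.C b, by
      change ev B θ (Polynomial.C b) = _
      rw [ev_apply, map_C, aeval_C]
      rfl⟩
  have hAtu : ∀ e ∈ t ∪ u, e ∈ A := fun e he => by
    rw [← hcf e, hA]
    exact mem_ev B θ fun c hc => hFB c (hF0F (hF0c e he c hc))
  have hAd : ∀ d ∈ Dn, d⁻¹ ∈ A := fun d hd => by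
    rw [← hcf d⁻¹, hA]
    refine mem_ev B θ fun c hc => ?_
    have h1 : c = c * d3 c * (d3 c)⁻¹ := by
      rw [mul_assoc, mul_inv_cancel₀ (hd3 c).2.1, mul_one]
    rw [h1]
    exact B.mul_mem (hB0 (hd3 c).2.2) (hFB _ (hFd d hd c hc))
  have hg2 : ∀ b : B, ∃ h : κ b ∈ (ev B θ).range, g' ⟨κ b, h⟩ = algebraMap R L (f b) := by
    intro b
    have h1 : ev B θ (Polynomial.C b) = κ b := by
      rw [ev_apply, map_C, aeval_C]
      rfl
    refine ⟨⟨Polynomial.C b, h1⟩, ?_⟩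
    rw [← hg' b]
    congr 1
    exact Subtype.ext h1.symm
  subst hA
  -- the values on the curves
  have huZ : ∀ w ∈ u, w ∈ Zs g' ⊥ := by
    intro w hw
    rw [hu, Finset.mem_biUnion] at hw
    obtain ⟨i, -, hw⟩ := hw
    obtain ⟨w', hw', rfl⟩ := Finset.mem_image.1 hw
    have hin : ∀ x : Algebra.adjoin ℂ (Ug i : Set (U i)), ((x : U i) : V) ∈ (ev B θ).range := by
      have h1 : Algebra.adjoin ℂ (Ug i : Set (U i)) ≤ (ev B θ).range.comap (U i).val := by
        rw [Algebra.adjoin_le_iff]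
        intro x hx
        exact hAtu _ (Finset.mem_union_right _ (hu1 i x hx))
      exact fun x => h1 x.2
    let γ : Algebra.adjoin ℂ (Ug i : Set (U i)) →ₐ[ℂ] L :=
      g'.comp (AlgHom.codRestrict ((U i).val.comp (Algebra.adjoin ℂ (Ug i : Set (U i))).val)
        (ev B θ).range hin)
    have h2 := const_curve (hC R hCR i L hrank') (hU i) (hUg i) γ
      ⟨w', Algebra.subset_adjoin hw'⟩
    rw [mem_Zs]
    exact ⟨hin ⟨w', Algebra.subset_adjoin hw'⟩, h2⟩
  -- the values on the factor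
  obtain ⟨WR, hWR⟩ : ∃ WR : IntermediateField ℂ L, WR = (IsScalarTower.toAlgHom ℂ R L).fieldRange :=
    ⟨_, rfl⟩
  have hZle : ∀ z ∈ Zs g' ⊥, z ∈ Zs g' WR := by
    intro z hz
    rw [mem_Zs] at hz ⊢
    obtain ⟨h1, h2⟩ := hz
    exact ⟨h1, (bot_le : (⊥ : IntermediateField ℂ L) ≤ WR) h2⟩
  have hFZ : Algebra.adjoin ℂ (κ '' F0 ∪ u) ≤ Zs g' WR := by
    rw [Algebra.adjoin_le_iff]
    rintro w (⟨c, hc, rfl⟩ | hw)
    · obtain ⟨h1, h2⟩ := hg2 ⟨c, hFB c (hF0F hc)⟩
      change κ c ∈ Zs g' WR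
      rw [mem_Zs]
      refine ⟨h1, ?_⟩
      rw [hWR]
      exact ⟨_, h2.symm⟩
    · exact hZle w (huZ w hw)
  have htZ : ∀ τ ∈ t, τ ∈ Zs g' WR := by
    intro τ hτ
    refine div_Zs g' WR (hAtu τ (Finset.mem_union_left _ hτ)) (hd2 τ).2.1 (hFZ (hd2 τ).1)
      (hAd _ ?_) (hFZ (hd2 τ).2.2)
    rw [hDn]
    exact Finset.mem_union_right _ (Finset.mem_image_of_mem _ hτ)
  -- one of the values is not constant
  obtain ⟨τ, hτ, hτZ⟩ : ∃ τ ∈ t, τ ∉ Zs g' ⊥ := by
    by_contra hcon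
    push Not at hcon
    have h1 : Algebra.adjoin ℂ ((t : Set V) ∪ u) ≤ Zs g' ⊥ := by
      rw [Algebra.adjoin_le_iff]
      rintro w (hw | hw)
      · exact hcon w hw
      · exact huZ w hw
    have h2 : ∀ φ ∈ F0, κ φ ∈ Zs g' ⊥ := by
      intro φ hφ
      refine div_Zs g' ⊥ (hAB ⟨φ, hFB φ (hF0F hφ)⟩) (hd1 φ).2.1 (h1 (hd1 φ).1) (hAd _ ?_)
        (h1 (hd1 φ).2.2)
      rw [hDn]
      exact Finset.mem_union_left _ (Finset.mem_image_of_mem _ hφ)
    have h3 : Algebra.adjoin ℂ (F0 : Set K) ≤ (Zs g' ⊥).comap κ := by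
      rw [Algebra.adjoin_le_iff]
      exact fun φ hφ => h2 φ hφ
    have h4 : B ≤ (Zs g' ⊥).comap κ := by
      refine hB.le.trans (Algebra.adjoin_le ?_)
      intro φ hφ
      rw [hF, Finset.coe_union] at hφ
      rcases hφ with hφ | hφ
      · exact h2 φ hφ
      · obtain ⟨d, hd, hφ⟩ := Finset.mem_biUnion.1 hφ
        obtain ⟨c, hc, rfl⟩ := Finset.mem_image.1 hφ
        have h5 : κ (d3 c) ∈ Zs g' ⊥ := h3 (hd3 c).1
        have h6 : κ (d3 c) ≠ 0 := by
          rw [Ne, map_eq_zero]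
          exact (hd3 c).2.1
        change κ (d3 c)⁻¹ ∈ Zs g' ⊥
        refine div_Zs g' ⊥ (hAB ⟨_, hFB _ (hFd d hd c hc)⟩) h6 h5 ?_ ?_
        · rw [← map_inv₀]
          exact hAB ⟨_, hFB _ (hFd d hd c hc)⟩
        · rw [map_inv₀, inv_mul_cancel₀ h6]
          exact Subalgebra.one_mem _
    have h5 : κ z ∈ Zs g' ⊥ := h4 z.2
    rw [mem_Zs] at h5
    obtain ⟨h6, c, hc⟩ := h5
    obtain ⟨h7, h8⟩ := hg2 z
    refine hz c ((algebraMap R L).injective ?_)
    rw [← h8, ← IsScalarTower.algebraMap_apply ℂ R L]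
    exact hc.symm
  rw [ht, Finset.mem_image] at hτ
  obtain ⟨τ', hτ', rfl⟩ := hτ
  have hin : ∀ x : Algebra.adjoin ℂ (G : Set T), ((x : T) : V) ∈ Zs g' WR := by
    have h1 : Algebra.adjoin ℂ (G : Set T) ≤ (Zs g' WR).comap T.val := by
      rw [Algebra.adjoin_le_iff]
      intro x hx
      refine htZ _ ?_
      rw [ht]
      exact Finset.mem_image_of_mem _ hx
    exact fun x => h1 x.2
  have hin2 : ∀ x : Algebra.adjoin ℂ (G : Set T), ((x : T) : V) ∈ (ev B θ).range := fun x =>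
    ((mem_Zs g' WR).1 (hin x)).1
  let γ : Algebra.adjoin ℂ (G : Set T) →ₐ[ℂ] L :=
    g'.comp (AlgHom.codRestrict (T.val.comp (Algebra.adjoin ℂ (G : Set T)).val)
      (ev B θ).range hin2)
  have hγ : ∀ x, γ x ∈ (IsScalarTower.toAlgHom ℂ R L).range := by
    intro x
    have h1 := ((mem_Zs g' WR).1 (hin x)).2
    exact hWR.le h1
  let s : Algebra.adjoin ℂ (G : Set T) →ₐ[ℂ] R :=
    (AlgEquiv.ofInjective (IsScalarTower.toAlgHom ℂ R L)
      (algebraMap R L).injective).symm.toAlgHom.comp (AlgHom.codRestrict γ _ hγ)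
  have hs : ∀ x, algebraMap R L (s x) = γ x := by
    intro x
    have h1 := (AlgEquiv.ofInjective (IsScalarTower.toAlgHom ℂ R L)
      (algebraMap R L).injective).apply_symm_apply (AlgHom.codRestrict γ _ hγ x)
    exact congrArg Subtype.val h1
  refine ⟨R, iR, iRC, hCR, s, ⟨τ', Algebra.subset_adjoin hτ'⟩, fun c hc => hτZ ?_⟩
  rw [mem_Zs]
  refine ⟨hin2 ⟨τ', Algebra.subset_adjoin hτ'⟩, c, ?_⟩
  have h1 : algebraMap ℂ L c = γ ⟨τ', Algebra.subset_adjoin hτ'⟩ := by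
    rw [← hs, hc, ← IsScalarTower.algebraMap_apply ℂ R L]
  exact h1

end

end Pool.Agent.U393.LG
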