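import Pool.Agent.U393.SA.Emb
import Pool.Agent.U393.SA.Kappa

/-!
Holomorphic differentials on the curves dominated by a finite cover of an almost homogeneous variety.
-/

set_option autoImplicit false
set_option linter.overlappingInstances false
set_option linter.unusedSectionVars false

open FF Pool.Agent.W602.GT Pool.Agent.W603.LV Pool.Agent.W619.PQ Pool.Agent.Y172

namespace Pool.Agent.U393.LG

section

variable {k K L : Type} [Field k] [CharZero k] [Field K] [Field L] [Algebra k K] [Algebra k L]
  [Algebra K L] [IsScalarTower k K L] [FiniteDimensional K L] [Algebra.EssFiniteType k K]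
  [Algebra.EssFiniteType k L] {n : ℕ}
  {P : Place k K} {Q : Place k L} {e : ℕ}

/-- the frame lifted to a finite extension -/
theorem frame_ge (hn : Algebra.trdeg k L = n) (h : Over Q P e) (hQ : Divisorial n Q)
    {y : Fin n → K} {E : Fin n → Derivation k K K} {i0 : Fin n} (hl : Loc P y E i0)
    {E' : Fin n → Derivation k L L}
    (hE' : ∀ i f, E' i (algebraMap K L f) = algebraMap K L (E i f)) (i : Fin n) {z : L}
    (hz : Q.Reg z) : Ge Q (1 - e) (E' i z) := by
  classical
  obtain ⟨W, hWd⟩ : ∃ W : (Fin n → Derivation k L L) → L, W = fun G =>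
    (Matrix.of fun a b => G a (if b = i then z else algebraMap K L (y b))).det := ⟨_, rfl⟩
  have hW : IsPluri 1 W := by
    intro A D
    rw [hWd]
    simp only
    rw [pow_one, ← Matrix.det_mul]
    congr 1
    ext a b
    rw [Matrix.of_apply, Matrix.mul_apply, Pool.Agent.W308.PG.YLOC.der_sum_apply]
    rfl
  have h1 := down_ge hn h hQ hl hE' hW (c := 0) (fun G hG => by
    have h2 : Ge Q 0 (W G) := by
      rw [hWd]
      refine Pool.Agent.W603.LV.ge_det Q _ _ (fun _ _ => 0) (fun a b => ?_) fun σ => by simp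
      rw [Matrix.of_apply]
      by_cases hb : b = i
      · rw [if_pos hb]
        exact hG a _ hz
      · rw [if_neg hb]
        exact hG a _ (h.reg.2 (hl.reg b))
    rcases h2 with h2 | h2
    · exact Or.inl h2
    · exact Or.inr (by exact_mod_cast h2))
  have h3 : W E' = E' i z := by
    rw [hWd]
    simp only
    have h4 : (Matrix.of fun a b => E' a (if b = i then z else algebraMap K L (y b))) =
        (1 : Matrix (Fin n) (Fin n) L).updateCol i (fun a => E' a z) := by
      ext a b
      rw [Matrix.of_apply, Matrix.updateCol_apply]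
      by_cases hb : b = i
      · rw [if_pos hb, if_pos hb]
      · rw [if_neg hb, if_neg hb, lift_dual hl.dual hE' a b, Matrix.one_apply]
    rw [h4, ← Matrix.cramer_apply, Matrix.cramer_one]
    rfl
  rw [h3] at h1
  rcases h1 with h1 | h1
  · exact Or.inl h1
  · right
    have h2 : ((1 - e : ℤ) : ℝ) ≤ (Q.ord (E' i z) : ℝ) := by
      push_cast
      push_cast at h1
      linarith
    exact_mod_cast h2

/-- lifts of regular vector fields -/
theorem der_ge (hn : Algebra.trdeg k K = n) (h : Over Q P e) (hP : Divisorial n P)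
    {D : Derivation k K K} (hD : DerReg P D) {D' : Derivation k L L}
    (hD' : ∀ f, D' (algebraMap K L f) = algebraMap K L (D f)) {z : L}
    (hz : Q.Reg z) : Ge Q (1 - e) (D' z) := by
  classical
  have hnL : Algebra.trdeg k L = n := trdeg_up (K := K) hn
  obtain ⟨y, E, i0, hl⟩ := exists_loc hn hP
  choose E' hE' using fun i => exists_lift (L := L) hn (E i)
  have h1 := Pool.Agent.W73.PG.PULL.expand (fun j => algebraMap K L (y j))
    (hl.bas.algebraMap_comp (A := L)) E' (lift_dual hl.dual hE') D'
  have h2 : D' z = ∑ i, D' (algebraMap K L (y i)) * E' i z := by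
    conv_lhs => rw [← h1]
    rw [Pool.Agent.W308.PG.YLOC.der_sum_apply]
    rfl
  rw [h2]
  have h3 : ∀ s : Finset (Fin n), Ge Q (1 - e) (∑ i ∈ s, D' (algebraMap K L (y i)) * E' i z) := by
    intro s
    induction s using Finset.induction_on with
    | empty =>
      rw [Finset.sum_empty]
      exact Or.inl rfl
    | insert a s ha ih =>
      rw [Finset.sum_insert ha]
      refine Ge.add ?_ ih
      have h4 : Ge Q 0 (D' (algebraMap K L (y a))) := by
        rw [hD']
        exact h.reg.2 (hD _ (hl.reg a))
      have h5 := h4.mul (frame_ge hnL h (divisorial_up h hP) hl hE' a hz)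
      rwa [zero_add] at h5
  exact h3 _

end

section

variable {U R L : Type} [Field U] [Field R] [Field L] [Algebra ℂ U] [Algebra ℂ R] [Algebra ℂ L]
  [Algebra R L] [IsScalarTower ℂ R L] [FiniteDimensional R L] [Algebra.EssFiniteType ℂ U]
  [Algebra.EssFiniteType ℂ R] [Algebra.EssFiniteType ℂ L]

/-- the values of the pull-back of a holomorphic differential -/
theorem form_ge {N e : ℕ} (hU : Algebra.trdeg ℂ U = 1) (hN : Algebra.trdeg ℂ R = N)
    {P : Place ℂ R} {Q : Place ℂ L} (h : Over Q P e) (hP : Divisorial N P)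
    {D : Derivation ℂ R R} (hD : DerReg P D) {D' : Derivation ℂ L L}
    (hD' : ∀ f, D' (algebraMap R L f) = algebraMap R L (D f)) (y : U →ₐ[ℂ] L)
    (x : Fin 1 → U) {f : U} (hf : ∀ P : Place ℂ U, Divisorial 1 P →
      RegAt P (fun D : Fin 1 → Derivation ℂ U U => (Matrix.of fun i j => D i (x j)).det * f)) :
    Ge Q (1 - e) (D' (y (x 0)) * y f) := by
  classical
  have hNL : Algebra.trdeg ℂ L = N := trdeg_up (K := R) hN
  by_cases hcon : ∀ z : U, Q.ord (y z) = 0
  · have h1 := (der_ge hN h hP hD hD' (z := y (x 0)) (Or.inr (hcon _).ge)).mul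
      (show Ge Q 0 (y f) from Or.inr (hcon f).ge)
    rwa [add_zero] at h1
  · push Not at hcon
    obtain ⟨z, hz0⟩ := hcon
    let iA : Algebra U L := y.toRingHom.toAlgebra
    have iT : IsScalarTower ℂ U L := IsScalarTower.of_algebraMap_eq fun c => (y.commutes c).symm
    obtain ⟨e', P', hP'⟩ := exists_over (K := U) Q ⟨z, hz0⟩
    have hPd : Divisorial 1 P' :=
      Pool.Agent.W619.Y.pDIVR.{0, 0} ℂ U L 1 N P' Q e' (by exact_mod_cast hU) hNL hP'
        (divisorial_up h hP)
    obtain ⟨yU, E, i0, hl⟩ := exists_loc (by exact_mod_cast hU) hPd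
    have hi0 : i0 = 0 := Subsingleton.elim _ _
    have h1 : Ge P' 0 ((Matrix.of fun i j => E i (x j)).det * f) := by
      have h2 := hf P' hPd E hl.pres
      exact h2
    rw [Matrix.det_fin_one, Matrix.of_apply] at h1
    have h2 : D' (y (x 0)) = y (E 0 (x 0)) * D' (y (yU 0)) := by
      have h3 := Pool.Agent.W308.PG.YLOC.expand (k := ℂ) (K := U) (L := L) yU E hl.bas hl.dual D'
        (x 0)
      rw [Fin.sum_univ_one] at h3
      rw [show y (x 0) = algebraMap U L (x 0) from rfl, h3]
      rfl
    rw [h2]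
    have h3 : Ge Q 0 (y (E 0 (x 0) * f)) := hP'.reg.2 h1
    have h4 := h3.mul (der_ge hN h hP hD hD' (z := y (yU 0)) (hP'.reg.2 (hl.reg 0)))
    rw [zero_add, map_mul] at h4
    have h5 : y (E 0 (x 0)) * D' (y (yU 0)) * y f = y (E 0 (x 0)) * y f * D' (y (yU 0)) := by ring
    rw [h5]
    exact h4

end

end Pool.Agent.U393.LG
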