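import Pool.Agent.U393.LG.Main
import Pool.Agent.U393.UT.Down

/-!
Specialisation of a product to one of its factors.
-/

set_option autoImplicit false
set_option linter.overlappingInstances false
set_option linter.unusedSectionVars false
set_option maxHeartbeats 4000000
set_option synthInstance.maxHeartbeats 400000

open IntermediateField
open Pool.Agent.U393.UT (dominate mem_of_int mem_of_smul)

namespace Pool.Agent.U393.LG

/-- **Specialisation.** -/
theorem spec {E : Type} [Field E] [Algebra ℂ E] (T : IntermediateField ℂ E) {d : ℕ}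
    (u : Fin d → E) (w : Finset E)
    (hw : ∀ z ∈ w, IsAlgebraic (Algebra.adjoin ℂ (Set.range u)) z)
    (hu : AlgebraicIndependent T u)
    (hE : ∀ z : E, IsAlgebraic (Algebra.adjoin T (Set.range u)) z)
    (hgen : IntermediateField.adjoin ℂ ((w : Set E) ∪ T) = ⊤) (Y : Finset E) :
    ∃ (O : Subalgebra ℂ E) (π : O →ₐ[ℂ] T), (∀ y ∈ Y, y ∈ O) ∧
      ∀ t : T, ∃ h : (t : E) ∈ O, π ⟨t, h⟩ = t := by
  classical
  let R1 : Subalgebra ℂ E := Algebra.adjoin ℂ (Set.range u)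
  have hb : ∀ z : E, ∃ b : R1, z ∈ w → (b ≠ 0 ∧ IsIntegral R1 (b • z)) := by
    intro z
    by_cases hz : z ∈ w
    · obtain ⟨b, h1, h2⟩ := (hw z hz).exists_integral_multiple
      exact ⟨b, fun _ => ⟨h1, h2⟩⟩
    · exact ⟨0, fun h => absurd h hz⟩
  choose b hb using hb
  have hd : ∀ y : E, ∃ d ∈ Algebra.adjoin ℂ ((w : Set E) ∪ T), d ≠ 0 ∧
      y * d ∈ Algebra.adjoin ℂ ((w : Set E) ∪ T) := fun y => exists_den _ (by
    rw [hgen]
    trivial)
  choose dn hd using hd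
  let X1 : Finset E := w ∪ (w.image fun z => ((b z : E))⁻¹) ∪ Y ∪ (Y.image fun y => (dn y)⁻¹)
  let R2 : Subalgebra T E := Algebra.adjoin T (Set.range u)
  have hR2 : Algebra.IsAlgebraic R2 E := ⟨hE⟩
  obtain ⟨g, hg0, hg⟩ := Algebra.IsAlgebraic.exists_integral_multiples R2 X1
  have hg0' : (g : E) ≠ 0 := fun h => hg0 (Subtype.ext h)
  -- the polynomial
  obtain ⟨G, hG⟩ : ∃ G : MvPolynomial (Fin d) T, MvPolynomial.aeval u G = (g : E) := by
    have h1 : (g : E) ∈ (MvPolynomial.aeval u : MvPolynomial (Fin d) T →ₐ[T] E).range := by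
      rw [← Algebra.adjoin_range_eq_range_aeval]
      exact g.2
    exact h1
  have hG0 : G ≠ 0 := by
    rintro rfl
    rw [map_zero] at hG
    exact hg0' hG.symm
  obtain ⟨c, hc⟩ : ∃ c : Fin d → ℂ, MvPolynomial.eval (fun i => algebraMap ℂ T (c i)) G ≠ 0 := by
    by_contra hcon
    push Not at hcon
    apply hG0
    refine MvPolynomial.funext_set (fun _ : Fin d => Set.range (algebraMap ℂ T)) (fun i => ?_)
      (p := G) (q := 0) fun x hx => ?_
    · exact Set.infinite_range_of_injective (algebraMap ℂ T).injective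
    · have h1 : ∀ i, ∃ c, algebraMap ℂ T c = x i := fun i => hx i trivial
      choose c hc using h1
      have h2 : x = fun i => algebraMap ℂ T (c i) := funext fun i => (hc i).symm
      rw [h2, hcon c, map_zero]
  -- the valuation ring
  let J : Ideal (MvPolynomial (Fin d) T) :=
    RingHom.ker (MvPolynomial.eval (fun i => algebraMap ℂ T (c i)))
  obtain ⟨V, hV1, hV2⟩ := dominate
    (MvPolynomial.aeval u : MvPolynomial (Fin d) T →ₐ[T] E).toRingHom hu J
    (RingHom.ker_ne_top _)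
  have hV1 : ∀ P : MvPolynomial (Fin d) T, MvPolynomial.aeval u P ∈ V := hV1
  have hV2 : ∀ P : MvPolynomial (Fin d) T,
      MvPolynomial.eval (fun i => algebraMap ℂ T (c i)) P = 0 →
      MvPolynomial.aeval u P ∈ V.nonunits := fun P hP => hV2 P hP
  have hTV : ∀ z : T, (z : E) ∈ V := by
    intro z
    have h1 := hV1 (MvPolynomial.C z)
    rw [MvPolynomial.aeval_C] at h1
    exact h1
  have hkV : ∀ z : ℂ, algebraMap ℂ E z ∈ V := fun z => hTV (algebraMap ℂ T z)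
  have huV : ∀ i, u i ∈ V := by
    intro i
    have h1 := hV1 (MvPolynomial.X i)
    rwa [MvPolynomial.aeval_X] at h1
  have hR2V : ∀ x ∈ R2, x ∈ V := by
    intro x hx
    have h1 : x ∈ (MvPolynomial.aeval u : MvPolynomial (Fin d) T →ₐ[T] E).range := by
      rw [← Algebra.adjoin_range_eq_range_aeval]
      exact hx
    obtain ⟨P, rfl⟩ := h1
    exact hV1 P
  have hgV : ((g : E))⁻¹ ∈ V := by
    let a : T := MvPolynomial.eval (fun i => algebraMap ℂ T (c i)) G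
    have ha : a ≠ 0 := hc
    have h1 : MvPolynomial.aeval u (G - MvPolynomial.C a) ∈ V.nonunits := by
      apply hV2
      rw [map_sub, MvPolynomial.eval_C, sub_self]
    rw [map_sub, hG, MvPolynomial.aeval_C] at h1
    change (g : E) - (a : E) ∈ V.nonunits at h1
    have ha0 : (a : E) ≠ 0 := fun h => ha (Subtype.ext h)
    have h2 : V.valuation (a : E) = 1 := by
      have h3 : V.valuation (a : E) ≤ 1 := (V.valuation_le_one_iff _).2 (hTV a)
      have h4 : V.valuation ((a : E))⁻¹ ≤ 1 := by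
        refine (V.valuation_le_one_iff _).2 ?_
        exact hTV (a⁻¹)
      rw [map_inv₀] at h4
      refine le_antisymm h3 ?_
      have h5 : V.valuation (a : E) ≠ 0 := (Valuation.ne_zero_iff _).2 ha0
      exact (inv_le_one₀ (zero_lt_iff.2 h5)).1 h4
    rw [ValuationSubring.mem_nonunits_iff] at h1
    have h3 : V.valuation (g : E) = 1 := by
      have h4 : (g : E) = ((g : E) - (a : E)) + (a : E) := by ring
      rw [h4, Valuation.map_add_eq_of_lt_right, h2]
      rw [h2]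
      exact h1
    rw [← V.valuation_le_one_iff, map_inv₀, h3, inv_one]
  have hX1V : ∀ z ∈ X1, z ∈ V := fun z hz => mem_of_smul V R2 hR2V hgV (hg z hz) hg0'
  have hR1V : ∀ x ∈ R1, x ∈ V := by
    let V' : Subalgebra ℂ E :=
      { V.toSubring with
        algebraMap_mem' := fun z => hkV z }
    have h1 : R1 ≤ V' := by
      refine Algebra.adjoin_le ?_
      rintro x ⟨i, rfl⟩
      exact huV i
    exact h1
  have hwV : ∀ z ∈ w, z ∈ V := fun z hz => hX1V z (by
    simp only [X1, Finset.mem_union]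
    exact Or.inl (Or.inl (Or.inl hz)))
  have hbV : ∀ z ∈ w, ((b z : E))⁻¹ ∈ V := fun z hz => hX1V _ (by
    simp only [X1, Finset.mem_union]
    exact Or.inl (Or.inl (Or.inr (Finset.mem_image_of_mem _ hz))))
  have hYV : ∀ y ∈ Y, y ∈ V := fun z hz => hX1V _ (by
    simp only [X1, Finset.mem_union]
    exact Or.inl (Or.inr hz))
  have hdV : ∀ y ∈ Y, (dn y)⁻¹ ∈ V := fun z hz => hX1V _ (by
    simp only [X1, Finset.mem_union]
    exact Or.inr (Finset.mem_image_of_mem _ hz))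
  -- the residue field
  let κ := IsLocalRing.ResidueField V
  let ρ : V →+* κ := IsLocalRing.residue V
  let ik : ℂ →+* V :=
    { toFun := fun z => ⟨algebraMap ℂ E z, hkV z⟩
      map_one' := Subtype.ext (map_one _)
      map_mul' := fun a b => Subtype.ext (map_mul _ a b)
      map_zero' := Subtype.ext (map_zero _)
      map_add' := fun a b => Subtype.ext (map_add _ a b) }
  let iκ : Algebra ℂ κ := (ρ.comp ik).toAlgebra
  let τ : T →ₐ[ℂ] κ :=
    { toFun := fun z => ρ ⟨z, hTV z⟩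
      map_one' := (congrArg ρ (Subtype.ext rfl)).trans (map_one ρ)
      map_mul' := fun a b => (congrArg ρ (Subtype.ext rfl)).trans (map_mul ρ ⟨a, hTV a⟩ ⟨b, hTV b⟩)
      map_zero' := (congrArg ρ (Subtype.ext rfl)).trans (map_zero ρ)
      map_add' := fun a b => (congrArg ρ (Subtype.ext rfl)).trans (map_add ρ ⟨a, hTV a⟩ ⟨b, hTV b⟩)
      commutes' := fun z => rfl }
  have hρ0 : ∀ (x : E) (h : x ∈ V), x ∈ V.nonunits → ρ ⟨x, h⟩ = 0 := by
    intro x h hx
    rw [IsLocalRing.residue_eq_zero_iff]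
    exact ValuationSubring.coe_mem_nonunits_iff.1 hx
  have hρu : ∀ i, ρ ⟨u i, huV i⟩ = algebraMap ℂ κ (c i) := by
    intro i
    have h1 : u i - algebraMap ℂ E (c i) ∈ V.nonunits := by
      have h2 := hV2 (MvPolynomial.X i - MvPolynomial.C (algebraMap ℂ T (c i))) (by
        rw [map_sub, MvPolynomial.eval_C, MvPolynomial.eval_X, sub_self])
      rw [map_sub, MvPolynomial.aeval_X, MvPolynomial.aeval_C] at h2
      exact h2
    have h2 := hρ0 _ (V.nonunits_subset h1) h1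
    have h3 : (⟨u i - algebraMap ℂ E (c i), V.nonunits_subset h1⟩ : V) = ⟨u i, huV i⟩ - ik (c i) :=
      Subtype.ext rfl
    rw [h3, map_sub, sub_eq_zero] at h2
    exact h2
  let W0 : IntermediateField ℂ κ → Subalgebra ℂ E := fun F =>
    { carrier := {x | ∃ h : x ∈ V, ρ ⟨x, h⟩ ∈ F}
      mul_mem' := by
        rintro a b ⟨ha, ha'⟩ ⟨hb, hb'⟩
        refine ⟨V.mul_mem _ _ ha hb, ?_⟩
        have h1 : (⟨a * b, V.mul_mem _ _ ha hb⟩ : V) = ⟨a, ha⟩ * ⟨b, hb⟩ := rfl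
        rw [h1, map_mul]
        exact mul_mem ha' hb'
      add_mem' := by
        rintro a b ⟨ha, ha'⟩ ⟨hb, hb'⟩
        refine ⟨V.add_mem _ _ ha hb, ?_⟩
        have h1 : (⟨a + b, V.add_mem _ _ ha hb⟩ : V) = ⟨a, ha⟩ + ⟨b, hb⟩ := rfl
        rw [h1, map_add]
        exact add_mem ha' hb'
      algebraMap_mem' := fun z => ⟨hkV z, F.algebraMap_mem z⟩ }
  have hR1W : R1 ≤ W0 ⊥ := by
    refine Algebra.adjoin_le ?_
    rintro x ⟨i, rfl⟩
    refine ⟨huV i, ?_⟩
    rw [hρu]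
    exact (⊥ : IntermediateField ℂ κ).algebraMap_mem _
  have hR1m : ∀ x : R1, ρ ⟨(x : E), hR1V x x.2⟩ ∈ (⊥ : IntermediateField ℂ κ) :=
    fun x => (hR1W x.2).2
  let G1 : R1 →+* (⊥ : IntermediateField ℂ κ) :=
    { toFun := fun x => ⟨ρ ⟨(x : E), hR1V x x.2⟩, hR1m x⟩
      map_one' := Subtype.ext (map_one ρ)
      map_mul' := fun a b => Subtype.ext (map_mul ρ ⟨a, hR1V a a.2⟩ ⟨b, hR1V b b.2⟩)
      map_zero' := Subtype.ext (map_zero ρ)
      map_add' := fun a b => Subtype.ext (map_add ρ ⟨a, hR1V a a.2⟩ ⟨b, hR1V b b.2⟩) }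
  let G2 : R1 →+* V :=
    { toFun := fun x => ⟨(x : E), hR1V x x.2⟩
      map_one' := rfl
      map_mul' := fun _ _ => rfl
      map_zero' := rfl
      map_add' := fun _ _ => rfl }
  have hint : ∀ (w : E) (hw : w ∈ V), IsIntegral R1 w →
      IsIntegral (⊥ : IntermediateField ℂ κ) (ρ ⟨w, hw⟩) := by
    rintro w hw ⟨P, hP, hP0⟩
    refine ⟨P.map G1, hP.map G1, ?_⟩
    have h1 : Polynomial.eval₂ G2 ⟨w, hw⟩ P = 0 := by
      apply Subtype.ext
      change V.subtype (Polynomial.eval₂ G2 ⟨w, hw⟩ P) = 0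
      rw [Polynomial.hom_eval₂]
      exact hP0
    rw [Polynomial.eval₂_map]
    have h2 := congrArg ρ h1
    rw [map_zero, Polynomial.hom_eval₂] at h2
    exact h2
  -- units
  have hunit : ∀ (x : E) (h : x ∈ V), x⁻¹ ∈ V → x ≠ 0 → ρ ⟨x, h⟩ ≠ 0 := by
    intro x h h' hx h0
    have h1 : ρ ⟨x, h⟩ * ρ ⟨x⁻¹, h'⟩ = 1 := by
      rw [← map_mul, ← map_one ρ]
      congr 1
      exact Subtype.ext (mul_inv_cancel₀ hx)
    rw [h0, zero_mul] at h1
    exact zero_ne_one h1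
  have hwW : ∀ z ∈ w, z ∈ W0 ⊥ := by
    intro z hz
    refine ⟨hwV z hz, ?_⟩
    have hb1 := hb z hz
    have h1 : (b z : E) * z ∈ V := V.mul_mem _ _ (hR1V _ (b z).2) (hwV z hz)
    have h2 : IsIntegral (⊥ : IntermediateField ℂ κ) (ρ ⟨(b z : E) * z, h1⟩) := hint _ _ hb1.2
    have h3 : IsAlgebraic ℂ (ρ ⟨(b z : E) * z, h1⟩) := h2.isAlgebraic.restrictScalars ℂ
    obtain ⟨a, ha⟩ := Pool.Agent.W602.GT.const_of_algebraic h3
    have h4 : ρ ⟨(b z : E), hR1V _ (b z).2⟩ ≠ 0 := hunit _ _ (hbV z hz)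
      (fun h => hb1.1 (Subtype.ext h))
    have h5 : ρ ⟨(b z : E), hR1V _ (b z).2⟩ * ρ ⟨z, hwV z hz⟩ = algebraMap ℂ κ a := by
      rw [← ha, ← map_mul]
      rfl
    have h6 : ρ ⟨z, hwV z hz⟩ = algebraMap ℂ κ a / ρ ⟨(b z : E), hR1V _ (b z).2⟩ := by
      rw [← h5, mul_div_cancel_left₀ _ h4]
    rw [h6]
    exact div_mem ((⊥ : IntermediateField ℂ κ).algebraMap_mem a) (hR1m (b z))
  have hall : Algebra.adjoin ℂ ((w : Set E) ∪ T) ≤ W0 τ.fieldRange := by
    refine Algebra.adjoin_le ?_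
    rintro z (hz | hz)
    · obtain ⟨h1, h2⟩ := hwW z hz
      exact ⟨h1, (bot_le : (⊥ : IntermediateField ℂ κ) ≤ τ.fieldRange) h2⟩
    · exact ⟨hTV ⟨z, hz⟩, ⟨⟨z, hz⟩, rfl⟩⟩
  have hYW : ∀ y ∈ Y, y ∈ W0 τ.fieldRange := by
    intro y hy
    refine ⟨hYV y hy, ?_⟩
    obtain ⟨h1, h2⟩ := hall (hd y).1
    obtain ⟨h3, h4⟩ := hall (hd y).2.2
    have h5 : ρ ⟨dn y, h1⟩ ≠ 0 := hunit _ _ (hdV y hy) (hd y).2.1
    have h6 : ρ ⟨y, hYV y hy⟩ * ρ ⟨dn y, h1⟩ = ρ ⟨y * dn y, h3⟩ := by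
      rw [← map_mul]
      rfl
    have h7 : ρ ⟨y, hYV y hy⟩ = ρ ⟨y * dn y, h3⟩ / ρ ⟨dn y, h1⟩ := by
      rw [← h6, mul_div_cancel_right₀ _ h5]
    rw [h7]
    exact div_mem h4 h2
  have hOV : ∀ x : W0 τ.fieldRange, (x : E) ∈ V := fun x => x.2.1
  let r0 : W0 τ.fieldRange →ₐ[ℂ] κ :=
    { toFun := fun x => ρ ⟨x, hOV x⟩
      map_one' := map_one ρ
      map_mul' := fun a b => map_mul ρ ⟨a, hOV a⟩ ⟨b, hOV b⟩
      map_zero' := map_zero ρ
      map_add' := fun a b => map_add ρ ⟨a, hOV a⟩ ⟨b, hOV b⟩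
      commutes' := fun z => rfl }
  have hr0 : ∀ x, r0 x ∈ τ.range := fun x => x.2.2
  let π : W0 τ.fieldRange →ₐ[ℂ] T :=
    (AlgEquiv.ofInjective τ τ.toRingHom.injective).symm.toAlgHom.comp
      (AlgHom.codRestrict r0 τ.range hr0)
  have hπ : ∀ x, τ (π x) = r0 x := by
    intro x
    have h1 := (AlgEquiv.ofInjective τ τ.toRingHom.injective).apply_symm_apply
      (AlgHom.codRestrict r0 τ.range hr0 x)
    exact congrArg Subtype.val h1
  refine ⟨W0 τ.fieldRange, π, hYW, fun t => ⟨⟨hTV t, ⟨t, rfl⟩⟩, ?_⟩⟩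
  apply τ.toRingHom.injective
  change τ (π _) = τ t
  rw [hπ]
  rfl

end Pool.Agent.U393.LG
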