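import Pool.Agent.U393.LG.Spec

/-!
Rational maps to the factor give rational maps to the dominated variety.
-/

set_option autoImplicit false
set_option linter.overlappingInstances false
set_option linter.unusedSectionVars false

open Polynomial
open Pool.Agent.Y172 (exists_crd)

namespace Pool.Agent.U393.LG

section

variable {K V : Type} [Field K] [Field V] [Algebra ℂ K] [Algebra ℂ V] [Algebra K V]
  [IsScalarTower ℂ K V] [FiniteDimensional K V] [Algebra.EssFiniteType ℂ V]

/-- coordinates on the other factor -/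
theorem exists_coord (U T : IntermediateField ℂ V) {d n : ℕ} (hUT : U ⊔ T = ⊤)
    (hU : Algebra.trdeg ℂ U = d) (hT : Algebra.trdeg ℂ T = n)
    (hV : Algebra.trdeg ℂ V = (d + n : ℕ)) :
    ∃ u : Fin d → V, (∀ z ∈ U, IsAlgebraic (Algebra.adjoin ℂ (Set.range u)) z) ∧
      AlgebraicIndependent T u ∧ ∀ z : V, IsAlgebraic (Algebra.adjoin T (Set.range u)) z := by
  obtain ⟨x, -, hx, -⟩ := exists_crd hU
  let u : Fin d → V := U.val ∘ x
  have h0 : ∀ z ∈ U, IsAlgebraic (IntermediateField.adjoin ℂ (Set.range u)) z := by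
    intro z hz
    have h1 : Algebra.IsAlgebraic (IntermediateField.adjoin ℂ (Set.range x)) U :=
      hx.isAlgebraic_field
    exact Pool.Agent.U393.UT.alg_push U.val x (h1.isAlgebraic ⟨z, hz⟩)
  have hTu : Algebra.IsAlgebraic (Algebra.adjoin T (Set.range u)) V := by
    let A0 : IntermediateField T V := IntermediateField.adjoin T (Set.range u)
    let A1 : IntermediateField A0 V := algebraicClosure A0 V
    have h1 : ∀ z : V, z ∈ A1 := by
      have h2 : (⊤ : IntermediateField ℂ V) ≤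
          ((A1.restrictScalars T).restrictScalars ℂ) := by
        rw [← hUT]
        refine sup_le (fun z hz => ?_) fun z hz => ?_
        · change z ∈ A1
          rw [mem_algebraicClosure_iff]
          have h3 := h0 z hz
          have h4 : ∀ w ∈ IntermediateField.adjoin ℂ (Set.range u), w ∈ A0 := by
            intro w hw
            have h5 : IntermediateField.adjoin ℂ (Set.range u) ≤ A0.restrictScalars ℂ := by
              rw [IntermediateField.adjoin_le_iff]
              exact IntermediateField.subset_adjoin T _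
            exact h5 hw
          let G : IntermediateField.adjoin ℂ (Set.range u) →+* A0 :=
            { toFun := fun w => ⟨w, h4 w w.2⟩
              map_one' := rfl
              map_mul' := fun _ _ => rfl
              map_zero' := rfl
              map_add' := fun _ _ => rfl }
          obtain ⟨p, hp0, hp⟩ := h3
          refine ⟨p.map G, (Polynomial.map_ne_zero_iff G.injective).2 hp0, ?_⟩
          rw [Polynomial.aeval_def, Polynomial.eval₂_map]
          rw [Polynomial.aeval_def] at hp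
          exact hp
        · change z ∈ A1
          exact A1.algebraMap_mem ⟨_, A0.algebraMap_mem ⟨z, hz⟩⟩
      exact fun z => h2 (by trivial : z ∈ (⊤ : IntermediateField ℂ V))
    have h2 : Algebra.IsAlgebraic A0 V := ⟨fun z => mem_algebraicClosure_iff.1 (h1 z)⟩
    rwa [IntermediateField.isAlgebraic_adjoin_iff_top] at h2
  have hTE : Algebra.trdeg T V = d := Pool.Agent.Y174.trdeg_LK hT (by rw [hV, add_comm])
  have hu : AlgebraicIndependent T u := by
    have h1 := Algebra.IsAlgebraic.isTranscendenceBasis_of_lift_le_trdeg_of_finite T u (by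
      rw [hTE]
      simp)
    exact h1.1
  refine ⟨u, fun z hz => ?_, hu, fun z => hTu.isAlgebraic z⟩
  have h3 := h0 z hz
  rw [IntermediateField.isAlgebraic_adjoin_iff] at h3
  exact h3

/-- **The special set of the dominated variety.** -/
theorem up {C : ∀ (R : Type) [Field R] [Algebra ℂ R], Prop}
    (U T : IntermediateField ℂ V) {d n : ℕ} (hUT : U ⊔ T = ⊤)
    (hU : Algebra.trdeg ℂ U = d) (hT : Algebra.trdeg ℂ T = n)
    (hV : Algebra.trdeg ℂ V = (d + n : ℕ)) (hTd : SpecialDense C T) :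
    SpecialDense C K := by
  classical
  intro F hF
  have hUe : Algebra.EssFiniteType ℂ U := Pool.Agent.N999.SX.ess_any U
  have hTe : Algebra.EssFiniteType ℂ T := Pool.Agent.N999.SX.ess_any T
  obtain ⟨Ug, hUg⟩ : ∃ s : Finset U, IntermediateField.adjoin ℂ (s : Set U) = ⊤ :=
    IntermediateField.fg_top_iff.2 hUe
  obtain ⟨t, ht⟩ : ∃ s : Finset T, IntermediateField.adjoin ℂ (s : Set T) = ⊤ :=
    IntermediateField.fg_top_iff.2 hTe
  obtain ⟨u, hu1, hu2, hu3⟩ := exists_coord U T hUT hU hT hV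
  obtain ⟨w, hw⟩ : ∃ w : Finset V, w = Ug.image Subtype.val := ⟨_, rfl⟩
  have hw1 : ∀ z ∈ w, z ∈ U := by
    intro z hz
    rw [hw] at hz
    obtain ⟨z', -, rfl⟩ := Finset.mem_image.1 hz
    exact z'.2
  have hgen : IntermediateField.adjoin ℂ ((w : Set V) ∪ T) = ⊤ := by
    rw [eq_top_iff, ← hUT]
    refine sup_le (gen_le U hUg fun z hz => ?_) fun z hz => ?_
    · refine IntermediateField.subset_adjoin ℂ _ (Or.inl ?_)
      rw [hw]
      exact Finset.mem_image_of_mem _ hz
    · exact IntermediateField.subset_adjoin ℂ _ (Or.inr hz)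
  let κ : K →ₐ[ℂ] V := IsScalarTower.toAlgHom ℂ K V
  obtain ⟨FV, hFV⟩ : ∃ FV : Finset V, FV = F.image κ := ⟨_, rfl⟩
  have halg : ∀ τ : V, IsAlgebraic (Algebra.adjoin ℂ (FV : Set V)) τ := by
    intro τ
    rw [← IntermediateField.isAlgebraic_adjoin_iff]
    have h1 : ∀ x : K, κ x ∈ IntermediateField.adjoin ℂ (FV : Set V) := by
      intro x
      have h2 : IntermediateField.adjoin ℂ (F : Set K) ≤
          (IntermediateField.adjoin ℂ (FV : Set V)).comap κ := by
        rw [IntermediateField.adjoin_le_iff]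
        intro c hc
        refine IntermediateField.subset_adjoin ℂ _ ?_
        rw [hFV]
        exact Finset.mem_image_of_mem _ hc
      have h3 : x ∈ IntermediateField.adjoin ℂ (F : Set K) := by
        rw [hF]
        trivial
      exact h2 h3
    let G : K →+* IntermediateField.adjoin ℂ (FV : Set V) :=
      κ.toRingHom.codRestrict (IntermediateField.adjoin ℂ (FV : Set V)).toSubfield h1
    obtain ⟨p, hp0, hp⟩ := Algebra.IsAlgebraic.isAlgebraic (R := K) τ
    refine ⟨p.map G, (Polynomial.map_ne_zero_iff G.injective).2 hp0, ?_⟩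
    rw [Polynomial.aeval_def, Polynomial.eval₂_map]
    rw [Polynomial.aeval_def] at hp
    exact hp
  choose P hP0 hP using halg
  obtain ⟨Y, hY⟩ : ∃ Y : Finset V, Y = FV ∪ t.image fun τ : T =>
      (((P (τ : V)).leadingCoeff : Algebra.adjoin ℂ (FV : Set V)) : V)⁻¹ := ⟨_, rfl⟩
  obtain ⟨O, π, hO, hπ⟩ := spec T u w (fun z hz => hu1 z (hw1 z hz)) hu2 hu3 hgen Y
  have hFO : Algebra.adjoin ℂ (FV : Set V) ≤ O := by
    rw [Algebra.adjoin_le_iff]
    intro z hz
    refine hO z ?_
    rw [hY]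
    exact Finset.mem_union_left _ hz
  let p0 : V → T := fun x => if h : x ∈ O then π ⟨x, h⟩ else 0
  have hp0 : ∀ (x : V) (h : x ∈ O), p0 x = π ⟨x, h⟩ := fun x h => dif_pos h
  obtain ⟨G2, hG2⟩ : ∃ G2 : Finset T, G2 = t ∪ Y.image p0 := ⟨_, rfl⟩
  have hG2top : IntermediateField.adjoin ℂ (G2 : Set T) = ⊤ := by
    rw [eq_top_iff, ← ht]
    refine IntermediateField.adjoin.mono ℂ _ _ fun z hz => ?_
    rw [hG2]
    exact Finset.mem_union_left _ hz
  obtain ⟨R, iR, iRC, hCR, f, z, hz⟩ := hTd G2 hG2top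
  have hYG : ∀ y ∈ Y, p0 y ∈ Algebra.adjoin ℂ (G2 : Set T) := by
    intro y hy
    refine Algebra.subset_adjoin ?_
    rw [hG2]
    exact Finset.mem_union_right _ (Finset.mem_image_of_mem _ hy)
  have htG : ∀ τ ∈ t, τ ∈ Algebra.adjoin ℂ (G2 : Set T) := by
    intro τ hτ
    refine Algebra.subset_adjoin ?_
    rw [hG2]
    exact Finset.mem_union_left _ hτ
  -- the map on the functions on `W`
  have hmem : ∀ x : Algebra.adjoin ℂ (FV : Set V), π (Subalgebra.inclusion hFO x) ∈
      Algebra.adjoin ℂ (G2 : Set T) := by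
    have h1 : Algebra.adjoin ℂ (FV : Set V) ≤
        ((Algebra.adjoin ℂ (G2 : Set T)).comap π).map O.val := by
      rw [Algebra.adjoin_le_iff]
      intro x hx
      have hxY : x ∈ Y := by
        rw [hY]
        exact Finset.mem_union_left _ hx
      refine ⟨⟨x, hO x hxY⟩, ?_, rfl⟩
      change π ⟨x, hO x hxY⟩ ∈ Algebra.adjoin ℂ (G2 : Set T)
      rw [← hp0]
      exact hYG x hxY
    intro x
    obtain ⟨y, hy, hyx⟩ := h1 x.2
    have h2 : Subalgebra.inclusion hFO x = y := Subtype.ext hyx.symm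
    rw [h2]
    exact hy
  let jA : Algebra.adjoin ℂ (FV : Set V) →ₐ[ℂ] Algebra.adjoin ℂ (G2 : Set T) :=
    AlgHom.codRestrict (π.comp (Subalgebra.inclusion hFO)) _ hmem
  have hκ : ∀ x : Algebra.adjoin ℂ (F : Set K), κ x ∈ Algebra.adjoin ℂ (FV : Set V) := by
    have h1 : Algebra.adjoin ℂ (F : Set K) ≤ (Algebra.adjoin ℂ (FV : Set V)).comap κ := by
      rw [Algebra.adjoin_le_iff]
      intro x hx
      refine Algebra.subset_adjoin ?_
      rw [hFV]
      exact Finset.mem_image_of_mem _ hx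
    exact fun x => h1 x.2
  let jF : Algebra.adjoin ℂ (F : Set K) →ₐ[ℂ] Algebra.adjoin ℂ (FV : Set V) :=
    AlgHom.codRestrict (κ.comp (Algebra.adjoin ℂ (F : Set K)).val) _ hκ
  refine ⟨R, iR, iRC, hCR, f.comp (jA.comp jF), ?_⟩
  by_contra hcon
  push Not at hcon
  -- all values are constant
  have hconst : ∀ x : Algebra.adjoin ℂ (FV : Set V), f (jA x) ∈ (⊥ : IntermediateField ℂ R) := by
    intro x
    have h1 : Algebra.adjoin ℂ (FV : Set V) ≤
        (((⊥ : IntermediateField ℂ R).toSubalgebra.comap (f.comp jA))).map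
          (Algebra.adjoin ℂ (FV : Set V)).val := by
      rw [Algebra.adjoin_le_iff]
      intro x hx
      refine ⟨⟨x, Algebra.subset_adjoin hx⟩, ?_, rfl⟩
      have h2 : x ∈ F.image κ := by
        rw [← hFV]
        exact hx
      obtain ⟨y, hy, rfl⟩ := Finset.mem_image.1 h2
      obtain ⟨c, hc⟩ := hcon ⟨y, Algebra.subset_adjoin hy⟩
      exact ⟨c, hc.symm⟩
    obtain ⟨y, hy, hyx⟩ := h1 x.2
    have h2 : y = x := Subtype.ext hyx
    rw [← h2]
    exact hy
  let j0 : Algebra.adjoin ℂ (FV : Set V) →+* (⊥ : IntermediateField ℂ R) :=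
    { toFun := fun x => ⟨f (jA x), hconst x⟩
      map_one' := Subtype.ext (by simp)
      map_mul' := fun a b => Subtype.ext (by simp)
      map_zero' := Subtype.ext (by simp)
      map_add' := fun a b => Subtype.ext (by simp) }
  -- the inverses of the leading coefficients
  have hlead : ∀ τ ∈ t, ∃ h : p0 (((P τ).leadingCoeff : _) : V)⁻¹ ∈ Algebra.adjoin ℂ (G2 : Set T),
      f (jA (P τ).leadingCoeff) * f ⟨_, h⟩ = 1 := by
    intro τ hτ
    have hyY : (((P τ).leadingCoeff : _) : V)⁻¹ ∈ Y := by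
      rw [hY]
      exact Finset.mem_union_right _ (Finset.mem_image_of_mem _ hτ)
    refine ⟨hYG _ hyY, ?_⟩
    rw [← map_mul, ← map_one f]
    congr 1
    apply Subtype.ext
    change π (Subalgebra.inclusion hFO _) * p0 _ = 1
    rw [hp0 _ (hO _ hyY), ← map_mul, ← map_one π]
    congr 1
    apply Subtype.ext
    have h1 : (((P τ).leadingCoeff : Algebra.adjoin ℂ (FV : Set V)) : V) ≠ 0 := fun h =>
      (Polynomial.leadingCoeff_ne_zero.2 (hP0 τ)) (Subtype.ext h)
    exact mul_inv_cancel₀ h1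
  have htc : ∀ (τ : T) (hτ : τ ∈ t), f ⟨τ, htG τ hτ⟩ ∈ (⊥ : IntermediateField ℂ R) := by
    intro τ hτ
    obtain ⟨hτO, hπτ⟩ := hπ τ
    have h1 : Polynomial.eval₂ (Subalgebra.inclusion hFO : _ →+* O) ⟨τ, hτO⟩ (P τ) = 0 := by
      apply Subtype.ext
      have h3 := Polynomial.hom_eval₂ (P τ) (Subalgebra.inclusion hFO : _ →+* O)
        (O.val : O →+* V) ⟨τ, hτO⟩
      rw [show (((Polynomial.eval₂ (Subalgebra.inclusion hFO : _ →+* O) ⟨τ, hτO⟩ (P τ) : O) : V)) =
        (O.val : O →+* V) (Polynomial.eval₂ (Subalgebra.inclusion hFO : _ →+* O) ⟨τ, hτO⟩ (P τ))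
        from rfl, h3]
      exact hP τ
    have h2 : Polynomial.eval₂ (jA : _ →+* Algebra.adjoin ℂ (G2 : Set T)) ⟨τ, htG τ hτ⟩ (P τ) =
        0 := by
      apply Subtype.ext
      have h3 := Polynomial.hom_eval₂ (P τ) (jA : _ →+* Algebra.adjoin ℂ (G2 : Set T))
        ((Algebra.adjoin ℂ (G2 : Set T)).val : _ →+* T) ⟨τ, htG τ hτ⟩
      have h4 := congrArg π h1
      rw [map_zero] at h4
      have h5 := Polynomial.hom_eval₂ (P τ) (Subalgebra.inclusion hFO : _ →+* O)
        (π : O →+* T) ⟨τ, hτO⟩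
      rw [show π (Polynomial.eval₂ (Subalgebra.inclusion hFO : _ →+* O) ⟨τ, hτO⟩ (P τ)) =
        (π : O →+* T) (Polynomial.eval₂ (Subalgebra.inclusion hFO : _ →+* O) ⟨τ, hτO⟩ (P τ))
        from rfl, h5, show (π : O →+* T) ⟨τ, hτO⟩ = τ from hπτ] at h4
      rw [show (((Polynomial.eval₂ (jA : _ →+* Algebra.adjoin ℂ (G2 : Set T)) ⟨τ, htG τ hτ⟩ (P τ) :
        Algebra.adjoin ℂ (G2 : Set T)) : T)) =
        ((Algebra.adjoin ℂ (G2 : Set T)).val : _ →+* T) (Polynomial.eval₂
          (jA : _ →+* Algebra.adjoin ℂ (G2 : Set T)) ⟨τ, htG τ hτ⟩ (P τ)) from rfl, h3]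
      exact h4
    have h6 : IsAlgebraic (⊥ : IntermediateField ℂ R) (f ⟨τ, htG τ hτ⟩) := by
      refine ⟨(P τ).map j0, ?_, ?_⟩
      · intro h0
        have h7 := congrArg (fun q => Polynomial.coeff q (P τ).natDegree) h0
        simp only [Polynomial.coeff_map, Polynomial.coeff_zero] at h7
        obtain ⟨h8, h9⟩ := hlead τ hτ
        have h10 : f (jA (P τ).leadingCoeff) = 0 := congrArg Subtype.val h7
        rw [h10, zero_mul] at h9
        exact zero_ne_one h9
      · rw [Polynomial.aeval_def, Polynomial.eval₂_map]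
        have h7 := Polynomial.hom_eval₂ (P τ) (jA : _ →+* Algebra.adjoin ℂ (G2 : Set T))
          (f : _ →+* R) ⟨τ, htG τ hτ⟩
        have h8 := congrArg f h2
        rw [map_zero] at h8
        rw [← h8]
        exact h7.symm
    have h7 : IsAlgebraic ℂ (f ⟨τ, htG τ hτ⟩) := h6.restrictScalars ℂ
    obtain ⟨c, hc⟩ := Pool.Agent.W602.GT.const_of_algebraic h7
    exact ⟨c, hc.symm⟩
  -- the contradiction
  have hall : Algebra.adjoin ℂ (G2 : Set T) ≤ Zs f ⊥ := by
    rw [Algebra.adjoin_le_iff]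
    intro x hx
    rw [hG2, Finset.coe_union] at hx
    rcases hx with hx | hx
    · exact (mem_Zs f ⊥).2 ⟨htG x hx, htc x hx⟩
    · obtain ⟨y, hy, rfl⟩ := Finset.mem_image.1 hx
      have hyY := hy
      rw [hY] at hy
      rcases Finset.mem_union.1 hy with hy | hy
      · refine (mem_Zs f ⊥).2 ⟨hYG y hyY, ?_⟩
        have h1 := hconst ⟨y, Algebra.subset_adjoin hy⟩
        have h2 : (⟨p0 y, hYG y hyY⟩ : Algebra.adjoin ℂ (G2 : Set T)) =
            jA ⟨y, Algebra.subset_adjoin hy⟩ := Subtype.ext (hp0 y (hO y hyY))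
        rw [h2]
        exact h1
      · obtain ⟨τ, hτ, rfl⟩ := Finset.mem_image.1 hy
        obtain ⟨h1, h2⟩ := hlead τ hτ
        refine (mem_Zs f ⊥).2 ⟨h1, ?_⟩
        rw [eq_inv_of_mul_eq_one_right h2]
        exact (⊥ : IntermediateField ℂ R).inv_mem (hconst _)
  obtain ⟨h1, c, hc⟩ := (mem_Zs f ⊥).1 (hall z.2)
  exact hz c hc.symm

end

end Pool.Agent.U393.LG
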